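import Pool.Agent.Y395.SP.Stm2

set_option autoImplicit false

/-! A superharmonic function from Kraft inequalities for all lengths. -/

namespace Pool.Agent.Y540.SP

open Pool.Agent.Y395.SP

/-- a sum over the sequences of length `m + 1` -/
theorem sum_seqs_succ {K : Finset ℕ} (m : ℕ) (F : List ℕ → ℝ) :
    ∑ X ∈ seqs K (m + 1), F (List.ofFn X) = ∑ x ∈ K, ∑ Y ∈ seqs K m, F (x :: List.ofFn Y) := by
  have : ∑ X ∈ seqs K (m + 1), F (List.ofFn X) =
      ∑ p ∈ K ×ˢ seqs K m, F (p.1 :: List.ofFn p.2) := by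
    refine Finset.sum_nbij' (fun X => (X 0, Fin.tail X)) (fun p => Fin.cons p.1 p.2) ?_ ?_ ?_ ?_ ?_
    · intro X hX
      simp only [seqs, Fintype.mem_piFinset] at hX
      simp only [Finset.mem_product, seqs, Fintype.mem_piFinset]
      exact ⟨hX 0, fun i => hX i.succ⟩
    · intro p hp
      simp only [Finset.mem_product, seqs, Fintype.mem_piFinset] at hp
      simp only [seqs, Fintype.mem_piFinset]
      intro i
      refine Fin.cases ?_ (fun j => ?_) i
      · simpa using hp.1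
      · simpa using hp.2 j
    · intro X _; exact Fin.cons_self_tail X
    · intro p _; simp
    · intro X _
      rw [List.ofFn_succ]
      rfl
  rw [this, Finset.sum_product]

/-- a sum over the empty sequence -/
theorem sum_seqs_zero {K : Finset ℕ} (F : List ℕ → ℝ) :
    ∑ X ∈ seqs K 0, F (List.ofFn X) = F [] := by
  have : seqs K 0 = {Fin.elim0} := by
    ext X
    simp only [seqs, Fintype.mem_piFinset, Finset.mem_singleton]
    exact ⟨fun _ => funext fun i => i.elim0, fun _ i => i.elim0⟩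
  rw [this, Finset.sum_singleton]
  simp

/-- the weight of the sequences of length `h.length + j` with the past `h` -/
noncomputable def gg (K : Finset ℕ) (f : List ℕ → ℝ) (h : List ℕ) (j : ℕ) : ℝ :=
  ∑ Y ∈ seqs K j, f (h.reverse ++ List.ofFn Y)

/-- the superharmonic function -/
noncomputable def VV (K : Finset ℕ) (f : List ℕ → ℝ) (h : List ℕ) : ℝ :=
  ∑' j : ℕ, (1 / 2 : ℝ) ^ (h.length + j + 1) * gg K f h j

theorem gg_nonneg {K : Finset ℕ} {f : List ℕ → ℝ} (hf : ∀ X, 0 ≤ f X) (h : List ℕ) (j : ℕ) :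
    0 ≤ gg K f h j := Finset.sum_nonneg fun _ _ => hf _

theorem gg_cons (K : Finset ℕ) (f : List ℕ → ℝ) (h : List ℕ) (j : ℕ) :
    ∑ x ∈ K, gg K f (x :: h) j = gg K f h (j + 1) := by
  unfold gg
  rw [sum_seqs_succ j (fun Z => f (h.reverse ++ Z))]
  refine Finset.sum_congr rfl fun x _ => Finset.sum_congr rfl fun Y _ => ?_
  rw [List.reverse_cons, List.append_assoc]
  rfl

theorem gg_zero (K : Finset ℕ) (f : List ℕ → ℝ) (h : List ℕ) : gg K f h 0 = f h.reverse := by
  unfold gg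
  rw [sum_seqs_zero (fun Z => f (h.reverse ++ Z)), List.append_nil]

theorem gg_le {K : Finset ℕ} {f : List ℕ → ℝ} (hf : ∀ X, 0 ≤ f X) :
    ∀ (h : List ℕ), (∀ x ∈ h, x ∈ K) → ∀ j : ℕ,
      gg K f h j ≤ ∑ Z ∈ seqs K (h.length + j), f (List.ofFn Z) := by
  intro h
  induction h with
  | nil =>
    intro _ j
    unfold gg
    rw [show ([] : List ℕ).length + j = j by simp]
    exact le_of_eq (Finset.sum_congr rfl fun Y _ => by simp)
  | cons x h ih =>
    intro hx j
    have h1 : gg K f (x :: h) j ≤ gg K f h (j + 1) := by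
      rw [← gg_cons]
      exact Finset.single_le_sum (f := fun y => gg K f (y :: h) j)
        (fun y _ => gg_nonneg hf _ _) (hx x (by simp))
    have h2 := ih (fun y hy => hx y (by simp [hy])) (j + 1)
    rw [show (x :: h).length + j = h.length + (j + 1) by simp; ring]
    exact h1.trans h2

theorem geo_sum (a : ℕ) : HasSum (fun j : ℕ => (1 / 2 : ℝ) ^ (a + j + 1)) ((1 / 2) ^ a) := by
  have h := hasSum_geometric_two.mul_left ((1 / 2 : ℝ) ^ (a + 1))
  have e1 : (1 / 2 : ℝ) ^ (a + 1) * 2 = (1 / 2) ^ a := by rw [pow_succ]; ring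
  rw [e1] at h
  refine h.congr_fun ?_
  intro j
  rw [← pow_add]
  congr 1
  ring

section

variable {K : Finset ℕ} {f : List ℕ → ℝ} (hf : ∀ X, 0 ≤ f X)
  (hK : ∀ m : ℕ, ∑ Z ∈ seqs K m, f (List.ofFn Z) ≤ 1)

include hf hK

theorem gg_le_one {h : List ℕ} (hh : ∀ x ∈ h, x ∈ K) (j : ℕ) : gg K f h j ≤ 1 :=
  (gg_le hf h hh j).trans (hK _)

omit hK in
theorem term_nonneg (h : List ℕ) (j : ℕ) : 0 ≤ (1 / 2 : ℝ) ^ (h.length + j + 1) * gg K f h j :=
  mul_nonneg (by positivity) (gg_nonneg hf h j)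

theorem summ {h : List ℕ} (hh : ∀ x ∈ h, x ∈ K) :
    Summable fun j : ℕ => (1 / 2 : ℝ) ^ (h.length + j + 1) * gg K f h j := by
  refine Summable.of_nonneg_of_le (term_nonneg hf h) (fun j => ?_) (geo_sum h.length).summable
  calc (1 / 2 : ℝ) ^ (h.length + j + 1) * gg K f h j ≤ (1 / 2 : ℝ) ^ (h.length + j + 1) * 1 :=
        mul_le_mul_of_nonneg_left (gg_le_one hf hK hh j) (by positivity)
    _ = _ := mul_one _

omit hK in
theorem VV_nonneg (h : List ℕ) : 0 ≤ VV K f h := tsum_nonneg (term_nonneg hf h)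

theorem VV_nil : VV K f [] ≤ 1 := by
  have h1 : VV K f [] ≤ ∑' j : ℕ, (1 / 2 : ℝ) ^ (([] : List ℕ).length + j + 1) := by
    refine Summable.tsum_le_tsum (fun j => ?_) (summ hf hK (by simp)) (geo_sum _).summable
    calc _ ≤ (1 / 2 : ℝ) ^ (([] : List ℕ).length + j + 1) * 1 :=
          mul_le_mul_of_nonneg_left (gg_le_one hf hK (by simp) j) (by positivity)
      _ = _ := mul_one _
  refine h1.trans ?_
  rw [(geo_sum _).tsum_eq]
  simp

theorem VV_ge {h : List ℕ} (hh : ∀ x ∈ h, x ∈ K) :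
    (1 / 2 : ℝ) ^ (h.length + 1) * f h.reverse ≤ VV K f h := by
  have h1 := (summ hf hK hh).le_tsum 0 (fun j _ => term_nonneg hf h j)
  rw [gg_zero] at h1
  exact h1

theorem VV_super {h : List ℕ} (hh : ∀ x ∈ h, x ∈ K) : ∑ x ∈ K, VV K f (x :: h) ≤ VV K f h := by
  have hs : ∀ x ∈ K, Summable fun j : ℕ =>
      (1 / 2 : ℝ) ^ ((x :: h).length + j + 1) * gg K f (x :: h) j := fun x hx =>
    summ hf hK (by
      intro y hy
      rcases List.mem_cons.1 hy with rfl | hy
      · exact hx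
      · exact hh y hy)
  have h1 : ∑ x ∈ K, VV K f (x :: h) =
      ∑' j : ℕ, ∑ x ∈ K, (1 / 2 : ℝ) ^ ((x :: h).length + j + 1) * gg K f (x :: h) j :=
    (Summable.tsum_finsetSum hs).symm
  rw [h1]
  have h2 : ∀ j : ℕ, ∑ x ∈ K, (1 / 2 : ℝ) ^ ((x :: h).length + j + 1) * gg K f (x :: h) j =
      (1 / 2 : ℝ) ^ (h.length + (j + 1) + 1) * gg K f h (j + 1) := by
    intro j
    rw [← gg_cons, Finset.mul_sum]
    refine Finset.sum_congr rfl fun x _ => ?_
    rw [List.length_cons, show h.length + 1 + j + 1 = h.length + (j + 1) + 1 by ring]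
  simp only [h2]
  have h3 := (summ hf hK hh).sum_add_tsum_nat_add 1
  unfold VV
  rw [← h3]
  have h4 : 0 ≤ ∑ i ∈ Finset.range 1, (1 / 2 : ℝ) ^ (h.length + i + 1) * gg K f h i :=
    Finset.sum_nonneg fun i _ => term_nonneg hf h i
  linarith

end

/-- SP2-VEX -/
theorem main : SVex := by
  intro K c hK
  have hf : ∀ X : List ℕ, 0 ≤ (1 / 2 : ℝ) ^ (c X) := fun X => by positivity
  refine ⟨VV K (fun X => (1 / 2 : ℝ) ^ (c X)), VV_nil hf hK, fun h hh => VV_super hf hK hh,
    fun h hh => ?_⟩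
  refine le_trans (le_of_eq ?_) (VV_ge hf hK hh)
  rw [← pow_add]
  congr 1
  ring

end Pool.Agent.Y540.SP
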