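import Pool.Agent.Y540.SP.Ultra

/-!
# Commuting maps on special posets
-/

set_option autoImplicit false

namespace Pool.Agent.Y540.SP

open Filter

/-- the product of the powers of the maps `g 0, …, g (n-1)` -/
def act {X : Type} (g : ℕ → X → X) (n : ℕ) (a : ℕ → ℕ) (x : X) : X :=
  (List.range n).foldr (fun i y => (g i)^[a i] y) x

section
variable {X : Type} (g : ℕ → X → X)

@[simp] theorem act_zero (a : ℕ → ℕ) (x : X) : act g 0 a x = x := rfl

theorem act_succ (n : ℕ) (a : ℕ → ℕ) (x : X) :
    act g (n + 1) a x = act g n a ((g n)^[a n] x) := by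
  simp [act, List.range_succ]

theorem act_nil (n : ℕ) (x : X) : act g n 0 x = x := by
  induction n with
  | zero => rfl
  | succ n ih => rw [act_succ]; exact ih

theorem act_comm {n : ℕ} {h : X → X} (hc : ∀ i < n, Function.Commute h (g i)) (a : ℕ → ℕ) (x : X) :
    h (act g n a x) = act g n a (h x) := by
  induction n generalizing x with
  | zero => rfl
  | succ n ih =>
    rw [act_succ, act_succ, ih (fun i hi => hc i (by omega))]
    congr 1
    exact ((hc n (by omega)).iterate_right (a n)).eq x

theorem act_add {n : ℕ} (hc : ∀ i < n, ∀ j < n, Function.Commute (g i) (g j)) (a b : ℕ → ℕ)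
    (x : X) : act g n (a + b) x = act g n a (act g n b x) := by
  induction n generalizing x with
  | zero => rfl
  | succ n ih =>
    rw [act_succ, act_succ, act_succ, ih (fun i hi j hj => hc i (by omega) j (by omega)),
      Pi.add_apply, Function.iterate_add_apply]
    congr 1
    exact (act_comm g (h := (g n)^[a n])
      (fun i hi => (hc n (by omega) i (by omega)).iterate_left _) b _).symm

theorem act_mono [Preorder X] {n : ℕ} (hg : ∀ i < n, Monotone (g i)) (a : ℕ → ℕ) :
    Monotone (act g n a) := by
  induction n with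
  | zero => exact fun _ _ h => h
  | succ n ih =>
    intro x y hxy
    rw [act_succ, act_succ]
    exact ih (fun i hi => hg i (by omega)) ((hg n (by omega)).iterate _ hxy)

theorem act_congr {n : ℕ} {a b : ℕ → ℕ} (h : ∀ i < n, a i = b i) (x : X) :
    act g n a x = act g n b x := by
  induction n generalizing x with
  | zero => rfl
  | succ n ih =>
    rw [act_succ, act_succ, h n (by omega)]
    exact ih (fun i hi => h i (by omega)) _

theorem act_iter (f : X → X) (M : ℕ) (n : ℕ) (a : ℕ → ℕ) (x : X) :
    act (fun i => f^[M ^ i]) n a x = f^[∑ i ∈ Finset.range n, a i * M ^ i] x := by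
  induction n generalizing x with
  | zero => rfl
  | succ n ih =>
    rw [act_succ, ih, Finset.sum_range_succ, Function.iterate_add_apply, ← Function.iterate_mul,
      mul_comm]

end

theorem digits {M : ℕ} (hM : 0 < M) (n : ℕ) (a b : ℕ → ℕ) (ha : ∀ i < n, a i < M) (hb : ∀ i < n, b i < M) :
    ∑ i ∈ Finset.range n, a i * M ^ i < M ^ n ∧
    (∑ i ∈ Finset.range n, a i * M ^ i = ∑ i ∈ Finset.range n, b i * M ^ i →
      ∀ i < n, a i = b i) := by
  have lt : ∀ (n : ℕ) (a : ℕ → ℕ), (∀ i < n, a i < M) → ∑ i ∈ Finset.range n, a i * M ^ i < M ^ n := by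
    intro n
    induction n with
    | zero => intro a _; simp
    | succ n ih =>
      intro a ha
      rw [Finset.sum_range_succ]
      have h1 := ih a (fun i hi => ha i (by omega))
      have h2 : a n + 1 ≤ M := ha n (by omega)
      have h3 : (a n + 1) * M ^ n ≤ M * M ^ n := Nat.mul_le_mul_right _ h2
      rw [pow_succ']
      linarith [h1, h3]
  refine ⟨lt n a ha, ?_⟩
  induction n with
  | zero => intro _ i hi; omega
  | succ n ih =>
    intro h
    rw [Finset.sum_range_succ, Finset.sum_range_succ] at h
    have h1 := lt n a (fun i hi => ha i (by omega))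
    have h2 := lt n b (fun i hi => hb i (by omega))
    have hp : 0 < M ^ n := pow_pos hM n
    have h3 : a n = b n := by
      have e1 : (∑ i ∈ Finset.range n, a i * M ^ i + a n * M ^ n) / M ^ n = a n := by
        rw [Nat.add_mul_div_right _ _ hp, Nat.div_eq_of_lt h1, zero_add]
      have e2 : (∑ i ∈ Finset.range n, b i * M ^ i + b n * M ^ n) / M ^ n = b n := by
        rw [Nat.add_mul_div_right _ _ hp, Nat.div_eq_of_lt h2, zero_add]
      rw [← e1, ← e2, h]
    rw [h3] at h
    have h4 := ih (fun i hi => ha i (by omega)) (fun i hi => hb i (by omega)) (by omega)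
    intro i hi
    rcases Nat.lt_succ_iff_lt_or_eq.1 hi with hi | rfl
    · exact h4 i hi
    · exact h3

theorem um_iter {P : ℕ → Type} {U : Ultrafilter ℕ} (f : ∀ m, P m → P m)
    (k : ℕ) (x : ∀ m, P m) : (um f)^[k] (mk x : Q P U) = mk fun m => (f m)^[k] (x m) := by
  induction k generalizing x with
  | zero => rfl
  | succ k ih =>
    rw [Function.iterate_succ_apply, um_mk, ih]
    rfl

theorem um_act {P : ℕ → Type} {U : Ultrafilter ℕ} (g : ∀ m, ℕ → P m → P m)
    (n : ℕ) (a : ℕ → ℕ) (x : ∀ m, P m) :
    act (fun i => um fun m => g m i) n a (mk x : Q P U) = mk fun m => act (g m) n a (x m) := by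
  induction n generalizing x with
  | zero => rfl
  | succ n ih =>
    rw [act_succ, um_iter, ih]
    congr 1
    funext m
    rw [act_succ]

/-- the chains of `X` have at most `n` elements -/
def Chains (X : Type) [PartialOrder X] (n : ℕ) : Prop :=
  ∀ c : Finset X, IsChain (· ≤ ·) (c : Set X) → c.card ≤ n

theorem Chains.list {X : Type} [PartialOrder X] {n : ℕ} (h : Chains X n) (l : List X)
    (hl : l.Pairwise (· < ·)) : l.length ≤ n := by
  classical
  have h1 : l.Nodup := hl.imp fun h => ne_of_lt h
  rw [← List.toFinset_card_of_nodup h1]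
  refine h _ ?_
  intro x hx y hy hxy
  rw [Finset.mem_coe, List.mem_toFinset] at hx hy
  have h3 : l.Pairwise (fun a b => a ≤ b ∨ b ≤ a) := hl.imp fun h => Or.inl h.le
  have : Std.Symm (fun a b : X => a ≤ b ∨ b ≤ a) := ⟨fun _ _ h => h.symm⟩
  exact h3.forall hx hy hxy

theorem commuting (n : ℕ) : ∃ N : ℕ, ∀ (X : Type) [PartialOrder X], Chains X n → ∀ s : X,
    IsSpecial s → ∀ g : ℕ → X → X, (∀ i < n, Monotone (g i)) →
    (∀ i < n, ∀ j < n, ∀ x, g i (g j x) = g j (g i x)) →
    ∃ a b : ℕ → ℕ, (∀ i, a i ≤ N ∧ b i ≤ N) ∧ (∃ i < n, a i ≠ b i) ∧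
      ∃ x, act g n a x = act g n b x := by
  by_contra hne
  push Not at hne
  choose P inst hP s hs g hg hc hab using hne
  have hspec : IsSpecial (mk s : Q P (hyperfilter ℕ)) := Q_special hs
  have : Nonempty (Q P (hyperfilter ℕ)) := ⟨mk s⟩
  have hact : ∀ (a : ℕ → ℕ) (x : Q P (hyperfilter ℕ)),
      act (fun i => um fun m => g m i) n a x = mk fun m => act (g m) n a (out x m) := by
    intro a x
    have := um_act (U := hyperfilter ℕ) g n a (out x)
    rwa [mk_out] at this
  refine no_free (X := Q P (hyperfilter ℕ)) (special_ac hspec) n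
    (Q_chains fun m => (hP m).list) (fun a => act (fun i => um fun m => g m i) n a)
    (fun a => act_mono _ (fun i hi => um_mono fun m => hg m i hi) a) (fun x => act_nil _ n x) ?_ ?_
  · intro a b x
    refine act_add _ ?_ a b x
    intro i hi j hj x
    show um (fun m => g m i) (um (fun m => g m j) x) = um (fun m => g m j) (um (fun m => g m i) x)
    rw [← mk_out x, um_mk, um_mk, um_mk, um_mk]
    congr 1
    funext m
    exact hc m i hi j hj _
  · intro a b x hx i hi
    by_contra hne
    have hx' : act (fun i => um fun m => g m i) n a x = act (fun i => um fun m => g m i) n b x := hx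
    rw [hact, hact] at hx'
    have h1 := mk_eq.1 hx'
    obtain ⟨N, hN⟩ : ∃ N : ℕ, ∀ i < n, a i ≤ N ∧ b i ≤ N := by
      refine ⟨∑ i ∈ Finset.range n, (a i + b i), fun i hi => ?_⟩
      have := Finset.single_le_sum (f := fun i => a i + b i) (fun _ _ => Nat.zero_le _)
        (Finset.mem_range.2 hi)
      omega
    have h2 : ∀ᶠ m in (hyperfilter ℕ : Filter ℕ), N ≤ m := by
      have : (hyperfilter ℕ : Filter ℕ) ≤ atTop := by
        rw [← Nat.cofinite_eq_atTop]
        exact hyperfilter_le_cofinite
      exact this (eventually_ge_atTop N)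
    obtain ⟨m, h3, h4⟩ := (h1.and h2).exists
    refine hab m (fun i => if i < n then a i else 0) (fun i => if i < n then b i else 0) ?_
      ⟨i, hi, ?_⟩ (out x m) ?_
    · intro i
      by_cases h5 : i < n
      · simp only [h5, if_true]
        exact ⟨(hN i h5).1.trans h4, (hN i h5).2.trans h4⟩
      · simp [h5]
    · simpa [hi] using hne
    · rw [act_congr (g m) (n := n) (b := a) (fun i hi => by simp [hi]),
        act_congr (g m) (n := n) (a := fun i => if i < n then b i else 0) (b := b)
          (fun i hi => by simp [hi])]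
      exact h3

theorem iterate (n : ℕ) : ∃ k : ℕ, 0 < k ∧ ∀ (X : Type) [PartialOrder X], Chains X n → ∀ s : X,
    IsSpecial s →
    (∀ f : X → X, Monotone f → ∃ x, f^[k] x = x) ∧
    (∀ g : ℕ → X → X, (∀ i < n, Monotone (g i)) →
      (∀ i < n, ∀ j < n, ∀ x, g i (g j x) = g j (g i x)) →
      ∃ a b : ℕ → ℕ, (∀ i, a i ≤ k ∧ b i ≤ k) ∧ (∃ i < n, a i ≠ b i) ∧
        ∃ x, act g n a x = act g n b x) := by
  obtain ⟨N, hN⟩ := commuting n
  have hk : (N + 1) ^ (n + 1) ≤ ((N + 1) ^ (n + 1)).factorial := Nat.self_le_factorial _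
  have hk' : N ≤ (N + 1) ^ (n + 1) := (Nat.le_succ N).trans (Nat.le_self_pow (by omega) _)
  refine ⟨((N + 1) ^ (n + 1)).factorial, Nat.factorial_pos _, fun X _ hX s hs => ⟨?_, ?_⟩⟩
  · intro f hf
    obtain ⟨a, b, hab, ⟨i, hi, hne⟩, x, hx⟩ := hN X hX s hs (fun i => f^[(N + 1) ^ i])
      (fun i _ => hf.iterate _) (fun i _ j _ x => by
        rw [← Function.iterate_add_apply, ← Function.iterate_add_apply, add_comm])
    rw [act_iter, act_iter] at hx
    have ha := digits (M := N + 1) (by omega) n a b (fun i _ => by have := hab i; omega)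
      (fun i _ => by have := hab i; omega)
    have hb := digits (M := N + 1) (by omega) n b a (fun i _ => by have := hab i; omega)
      (fun i _ => by have := hab i; omega)
    set A := ∑ i ∈ Finset.range n, a i * (N + 1) ^ i with hA
    set B := ∑ i ∈ Finset.range n, b i * (N + 1) ^ i with hB
    have hAB : A ≠ B := fun h => hne (ha.2 h i hi)
    have hle : (N + 1) ^ n ≤ (N + 1) ^ (n + 1) := Nat.pow_le_pow_right (by omega) (by omega)
    rcases lt_or_gt_of_ne hAB with h | h
    · refine ⟨f^[A] x, ?_⟩
      have h1 : Function.IsPeriodicPt f (B - A) (f^[A] x) := by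
        show f^[B - A] (f^[A] x) = f^[A] x
        rw [← Function.iterate_add_apply, Nat.sub_add_cancel h.le, hx]
      exact h1.trans_dvd (Nat.dvd_factorial (by omega) (by omega))
    · refine ⟨f^[B] x, ?_⟩
      have h1 : Function.IsPeriodicPt f (A - B) (f^[B] x) := by
        show f^[A - B] (f^[B] x) = f^[B] x
        rw [← Function.iterate_add_apply, Nat.sub_add_cancel h.le, hx]
      exact h1.trans_dvd (Nat.dvd_factorial (by omega) (by omega))
  · intro g hg hc
    obtain ⟨a, b, hab, h⟩ := hN X hX s hs g hg hc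
    exact ⟨a, b, fun i => ⟨((hab i).1.trans hk').trans hk, ((hab i).2.trans hk').trans hk⟩, h⟩

end Pool.Agent.Y540.SP
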