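import Pool.Agent.Y540.SP.Cx

/-!
# Acyclic sets

`Ac K`: every cycle of weakly increasing lists of elements of `K` is a boundary.
-/

set_option autoImplicit false

namespace Pool.Agent.Y540.SP

open Finsupp

variable {X : Type} [PartialOrder X]

/-- the weakly increasing lists of elements of `K` -/
def W (K : Set X) : Set (List X) := {l | l.Pairwise (· ≤ ·) ∧ ∀ x ∈ l, x ∈ K}

theorem W_mono {K K' : Set X} (h : K' ⊆ K) : W K' ⊆ W K :=
  fun _ hl => ⟨hl.1, fun x hx => h (hl.2 x hx)⟩

theorem W_sub {K : Set X} {l l' : List X} (hl : l ∈ W K) (h : l'.Sublist l) : l' ∈ W K :=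
  ⟨hl.1.sublist h, fun x hx => hl.2 x (h.subset hx)⟩

omit [PartialOrder X] in
theorem Sp_mono {S T : Set (List X)} (h : S ⊆ T) {c : C X} (hc : c ∈ Sp S) : c ∈ Sp T :=
  Finsupp.supported_mono h hc

theorem dl_mem {K : Set X} {l : List X} (hl : l ∈ W K) : dl l ∈ Sp (W K) :=
  Sp_mono (fun _ h => W_sub hl h.1) (dl_sub l)

theorem d_mem {K : Set X} {c : C X} (hc : c ∈ Sp (W K)) : d c ∈ Sp (W K) :=
  lin_mem d (fun l hl => by rw [d_single]; exact dl_mem hl) hc

/-- every cycle is a boundary -/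
def Ac (K : Set X) : Prop := ∀ c ∈ Sp (W K), d c = 0 → ∃ e ∈ Sp (W K), d e = c

theorem Ac_cone {K : Set X} {s : X} (hs : s ∈ K) (h : ∀ x ∈ K, s ≤ x) : Ac K := by
  intro c hc hd
  refine ⟨cons s c, lin_mem (cons s) (fun l hl => ?_) hc, ?_⟩
  · rw [cons_single]
    refine single_mem ⟨List.pairwise_cons.2 ⟨fun x hx => h x (hl.2 x hx), hl.1⟩, ?_⟩
    intro x hx
    rcases List.mem_cons.1 hx with rfl | hx
    · exact hs
    · exact hl.2 x hx
  · rw [d_cons, hd, map_zero, add_zero]

theorem map_mem {K K' : Set X} {φ : X → X} (hm : ∀ x ∈ K, ∀ y ∈ K, x ≤ y → φ x ≤ φ y)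
    (hK : ∀ x ∈ K, φ x ∈ K') {l : List X} (hl : l ∈ W K) : l.map φ ∈ W K' := by
  refine ⟨?_, ?_⟩
  · rw [List.pairwise_map]
    exact hl.1.imp_of_mem fun {a b} ha hb hab => hm a (hl.2 a ha) b (hl.2 b hb) hab
  · intro x hx
    obtain ⟨y, hy, rfl⟩ := List.mem_map.1 hx
    exact hK y (hl.2 y hy)

theorem mp_mem {K K' : Set X} {φ : X → X} (hm : ∀ x ∈ K, ∀ y ∈ K, x ≤ y → φ x ≤ φ y)
    (hK : ∀ x ∈ K, φ x ∈ K') {c : C X} (hc : c ∈ Sp (W K)) : mp φ c ∈ Sp (W K') :=
  lin_mem (mp φ) (fun l hl => by rw [mp_single]; exact single_mem (map_mem hm hK hl)) hc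

theorem hl_mem {K : Set X} {φ ψ : X → X} (h1 : ∀ x ∈ K, ∀ y ∈ K, x ≤ y → φ x ≤ φ y)
    (h2 : ∀ x ∈ K, ∀ y ∈ K, x ≤ y → ψ x ≤ ψ y) (h3 : ∀ x ∈ K, φ x ≤ ψ x)
    (k1 : ∀ x ∈ K, φ x ∈ K) (k2 : ∀ x ∈ K, ψ x ∈ K) (l : List X) (hl : l ∈ W K) :
    Pool.Agent.Y540.SP.hl φ ψ l ∈ Sp (W K ∩ {l' | ∀ x ∈ K, (∀ y ∈ l, x ≤ y) → ∀ y ∈ l', φ x ≤ y}) := by
  induction l with
  | nil => exact zero_mem _
  | cons x l ih =>
    have hx : x ∈ K := hl.2 x List.mem_cons_self
    have hl' : l ∈ W K := W_sub hl (List.sublist_cons_self x l)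
    have hxl : ∀ y ∈ l, x ≤ y := fun y hy => List.rel_of_pairwise_cons hl.1 hy
    refine add_mem (single_mem ⟨⟨?_, ?_⟩, ?_⟩) ?_
    · have e : (ψ x :: l.map ψ) = (x :: l).map ψ := rfl
      rw [e, List.pairwise_cons]
      refine ⟨?_, (map_mem h2 k2 hl).1⟩
      intro z hz
      obtain ⟨y, hy, rfl⟩ := List.mem_map.1 hz
      have hy' := hl.2 y hy
      rcases List.mem_cons.1 hy with rfl | hy
      · exact h3 _ hy'
      · exact (h1 x hx y hy' (hxl y hy)).trans (h3 y hy')
    · intro z hz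
      rcases List.mem_cons.1 hz with rfl | hz
      · exact k1 x hx
      rcases List.mem_cons.1 hz with rfl | hz
      · exact k2 x hx
      obtain ⟨y, hy, rfl⟩ := List.mem_map.1 hz
      exact k2 y (hl'.2 y hy)
    · intro z hzK hz y hy
      have hzx := hz x List.mem_cons_self
      rcases List.mem_cons.1 hy with rfl | hy
      · exact h1 z hzK x hx hzx
      rcases List.mem_cons.1 hy with rfl | hy
      · exact (h1 z hzK x hx hzx).trans (h3 x hx)
      obtain ⟨w, hw, rfl⟩ := List.mem_map.1 hy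
      have hw' := hl'.2 w hw
      exact (h1 z hzK w hw' (hz w (List.mem_cons_of_mem _ hw))).trans (h3 w hw')
    · refine lin_mem (cons (φ x)) (fun l' hl'' => ?_) (ih hl')
      rw [cons_single]
      have h4 : ∀ y ∈ l', φ x ≤ y := hl''.2 x hx hxl
      refine single_mem ⟨⟨List.pairwise_cons.2 ⟨h4, hl''.1.1⟩, ?_⟩, ?_⟩
      · intro y hy
        rcases List.mem_cons.1 hy with rfl | hy
        · exact k1 x hx
        · exact hl''.1.2 y hy
      · intro z hzK hz y hy
        have hzx := hz x List.mem_cons_self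
        rcases List.mem_cons.1 hy with rfl | hy
        · exact h1 z hzK x hx hzx
        · exact (h1 z hzK x hx hzx).trans (h4 y hy)

theorem homot {K : Set X} {φ ψ : X → X} (h1 : ∀ x ∈ K, ∀ y ∈ K, x ≤ y → φ x ≤ φ y)
    (h2 : ∀ x ∈ K, ∀ y ∈ K, x ≤ y → ψ x ≤ ψ y) (h3 : ∀ x ∈ K, φ x ≤ ψ x)
    (k1 : ∀ x ∈ K, φ x ∈ K) (k2 : ∀ x ∈ K, ψ x ∈ K) {c : C X} (hc : c ∈ Sp (W K))
    (hd : d c = 0) : ∃ e ∈ Sp (W K), d e = mp ψ c + mp φ c := by
  refine ⟨lin (Pool.Agent.Y540.SP.hl φ ψ) c, lin_mem _ (fun l hl => ?_) hc, ?_⟩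
  · rw [lin_single]
    exact Sp_mono Set.inter_subset_left (hl_mem h1 h2 h3 k1 k2 l hl)
  · have := dh φ ψ c
    rwa [hd, map_zero, add_zero] at this

theorem Ac_down {K K' : Set X} (hK : K' ⊆ K) {φ : X → X}
    (h1 : ∀ x ∈ K, ∀ y ∈ K, x ≤ y → φ x ≤ φ y) (h2 : ∀ x ∈ K, φ x ≤ x)
    (h3 : ∀ x ∈ K, φ x ∈ K') (h : Ac K') : Ac K := by
  intro c hc hd
  obtain ⟨e, he, hde⟩ := homot (K := K) (φ := φ) (ψ := id) h1 (fun x _ y _ hxy => hxy) h2
    (fun x hx => hK (h3 x hx)) (fun x hx => hx) hc hd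
  obtain ⟨e', he', hde'⟩ := h (mp φ c) (mp_mem h1 h3 hc) (by rw [d_mp, hd, map_zero])
  refine ⟨e + e', add_mem he (Sp_mono (W_mono hK) he'), ?_⟩
  rw [map_add, hde, hde', mp_id, add_assoc, two, add_zero]

theorem Ac_up {K K' : Set X} (hK : K' ⊆ K) {φ : X → X}
    (h1 : ∀ x ∈ K, ∀ y ∈ K, x ≤ y → φ x ≤ φ y) (h2 : ∀ x ∈ K, x ≤ φ x)
    (h3 : ∀ x ∈ K, φ x ∈ K') (h : Ac K') : Ac K := by
  intro c hc hd
  obtain ⟨e, he, hde⟩ := homot (K := K) (φ := id) (ψ := φ) (fun x _ y _ hxy => hxy) h1 h2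
    (fun x hx => hx) (fun x hx => hK (h3 x hx)) hc hd
  obtain ⟨e', he', hde'⟩ := h (mp φ c) (mp_mem h1 h3 hc) (by rw [d_mp, hd, map_zero])
  refine ⟨e + e', add_mem he (Sp_mono (W_mono hK) he'), ?_⟩
  rw [map_add, hde, hde', mp_id, add_comm (mp φ c) c, add_assoc, two, add_zero]

theorem Ac_down_pt {K K' : Set X} (hK : K' ⊆ K) {z w : X} (hz : ∀ x ∈ K, x = z ∨ x ∈ K')
    (hw : w ∈ K') (hwz : w ≤ z) (h1 : ∀ x ∈ K', x ≤ z → x ≤ w) (h : Ac K') : Ac K := by
  classical
  refine Ac_down hK (φ := fun x => if x = z then w else x) ?_ ?_ ?_ h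
  · intro x hx y hy hxy
    show (if x = z then w else x) ≤ (if y = z then w else y)
    by_cases hxz : x = z
    · by_cases hyz : y = z
      · rw [if_pos hxz, if_pos hyz]
      · rw [if_pos hxz, if_neg hyz]
        exact hwz.trans (hxz ▸ hxy)
    · by_cases hyz : y = z
      · rw [if_neg hxz, if_pos hyz]
        exact h1 x ((hz x hx).resolve_left hxz) (hyz ▸ hxy)
      · rw [if_neg hxz, if_neg hyz]
        exact hxy
  · intro x hx
    show (if x = z then w else x) ≤ x
    by_cases hxz : x = z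
    · rw [if_pos hxz, hxz]
      exact hwz
    · rw [if_neg hxz]
  · intro x hx
    show (if x = z then w else x) ∈ K'
    by_cases hxz : x = z
    · rw [if_pos hxz]
      exact hw
    · rw [if_neg hxz]
      exact (hz x hx).resolve_left hxz

theorem Ac_up_pt {K K' : Set X} (hK : K' ⊆ K) {z w : X} (hz : ∀ x ∈ K, x = z ∨ x ∈ K')
    (hw : w ∈ K') (hwz : z ≤ w) (h1 : ∀ x ∈ K', z ≤ x → w ≤ x) (h : Ac K') : Ac K := by
  classical
  refine Ac_up hK (φ := fun x => if x = z then w else x) ?_ ?_ ?_ h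
  · intro x hx y hy hxy
    show (if x = z then w else x) ≤ (if y = z then w else y)
    by_cases hxz : x = z
    · by_cases hyz : y = z
      · rw [if_pos hxz, if_pos hyz]
      · rw [if_pos hxz, if_neg hyz]
        exact h1 y ((hz y hy).resolve_left hyz) (hxz ▸ hxy)
    · by_cases hyz : y = z
      · rw [if_neg hxz, if_pos hyz]
        exact (hyz ▸ hxy : x ≤ z).trans hwz
      · rw [if_neg hxz, if_neg hyz]
        exact hxy
  · intro x hx
    show x ≤ (if x = z then w else x)
    by_cases hxz : x = z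
    · rw [if_pos hxz, hxz]
      exact hwz
    · rw [if_neg hxz]
  · intro x hx
    show (if x = z then w else x) ∈ K'
    by_cases hxz : x = z
    · rw [if_pos hxz]
      exact hw
    · rw [if_neg hxz]
      exact (hz x hx).resolve_left hxz

/-- Acyclic carriers: if every finite chain is contained in an acyclic set `K L`, monotone in the
chain, then the whole poset is acyclic. -/
theorem Ac_univ [DecidableEq X] (K : Finset X → Set X) (hmono : ∀ L L' : Finset X, L' ⊆ L → K L' ⊆ K L)
    (hsub : ∀ L : Finset X, (L : Set X) ⊆ K L) {s : X} (hs : s ∈ K ∅)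
    (hac : ∀ L : Finset X, IsChain (· ≤ ·) (L : Set X) → Ac (K L)) : Ac (Set.univ : Set X) := by
  have key : ∀ n : ℕ, ∃ H : List X → C X, ∀ l ∈ W (Set.univ : Set X), l.length ≤ n →
      H l ∈ Sp (W (K l.toFinset)) ∧ d (H l) = single l 1 + lin H (dl l) := by
    intro n
    induction n with
    | zero =>
      refine ⟨fun _ => single [s] 1, fun l _ hl => ?_⟩
      have : l = [] := List.eq_nil_of_length_eq_zero (Nat.le_zero.1 hl)
      subst this
      refine ⟨single_mem ⟨List.pairwise_singleton _ _, ?_⟩, ?_⟩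
      · intro x hx
        rw [List.mem_singleton.1 hx]
        simpa using hs
      · simp [dl]
    | succ n ih =>
      obtain ⟨H, hH⟩ := ih
      -- the linear extension of `H` on the boundary of a list
      have h1 : ∀ l ∈ W (Set.univ : Set X), l.length ≤ n + 1 → ∀ c ∈ Sp {l' | l'.Sublist l ∧
          l'.length + 1 = l.length}, lin H c ∈ Sp (W (K l.toFinset)) ∧
            d (lin H c) = c + lin H (d c) := by
        intro l hl hln c hc
        refine ⟨lin_mem _ (fun l' hl' => ?_) hc, ?_⟩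
        · rw [lin_single]
          have h2 := (hH l' (W_sub hl hl'.1) (by have := hl'.2; omega)).1
          refine Sp_mono (W_mono (hmono _ _ ?_)) h2
          intro x hx
          rw [List.mem_toFinset] at hx ⊢
          exact hl'.1.subset hx
        · refine sp_induction (p := fun c => d (lin H c) = c + lin H (d c)) (by simp) ?_ ?_ hc
          · intro l' hl'
            rw [lin_single, d_single]
            exact (hH l' (W_sub hl hl'.1) (by have := hl'.2; omega)).2
          · intro a b ha hb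
            simp only [map_add, ha, hb]
            abel
      have h2 : ∀ l : List X, ∃ e : C X, l ∈ W (Set.univ : Set X) → l.length = n + 1 →
          e ∈ Sp (W (K l.toFinset)) ∧ d e = single l 1 + lin H (dl l) := by
        intro l
        by_cases hl : l ∈ W (Set.univ : Set X)
        · by_cases hln : l.length = n + 1
          · have hch : IsChain (· ≤ ·) (l.toFinset : Set X) := by
              intro x hx y hy hxy
              rw [Finset.mem_coe, List.mem_toFinset] at hx hy
              have h3 : l.Pairwise (fun a b => a ≤ b ∨ b ≤ a) := hl.1.imp fun h => Or.inl h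
              have : Std.Symm (fun a b : X => a ≤ b ∨ b ≤ a) := ⟨fun _ _ h => h.symm⟩
              exact h3.forall hx hy hxy
            have h4 := h1 l hl hln.le (dl l) (dl_sub l)
            have h5 : single l (1 : ZMod 2) ∈ Sp (W (K l.toFinset)) :=
              single_mem ⟨hl.1, fun x hx => hsub _ (by simpa using hx)⟩
            obtain ⟨e, he, hde⟩ := hac _ hch (single l 1 + lin H (dl l)) (add_mem h5 h4.1) (by
              rw [map_add, d_single, h4.2, d_dl, map_zero, add_zero, two])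
            exact ⟨e, fun _ _ => ⟨he, hde⟩⟩
          · exact ⟨0, fun _ h => absurd h hln⟩
        · exact ⟨0, fun h => absurd h hl⟩
      choose e he using h2
      refine ⟨fun l => if l.length ≤ n then H l else e l, fun l hl hln => ?_⟩
      have h3 : ∀ c ∈ Sp {l' : List X | l'.length ≤ n},
          lin (fun l => if l.length ≤ n then H l else e l) c = lin H c := by
        intro c hc
        refine sp_induction (p := fun c => lin (fun l => if l.length ≤ n then H l else e l) c =
          lin H c) (by simp) ?_ ?_ hc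
        · intro l' hl'
          rw [lin_single, lin_single]
          exact if_pos hl'
        · intro a b ha hb
          rw [map_add, map_add, ha, hb]
      rw [h3 (dl l) (Sp_mono (fun l' hl' => by have := hl'.2; show l'.length ≤ n; omega) (dl_sub l))]
      by_cases h4 : l.length ≤ n
      · simp only [h4, if_true]
        exact hH l hl h4
      · simp only [h4, if_false]
        exact he l hl (by omega)
  intro c hc hd
  obtain ⟨n, hn⟩ : ∃ n : ℕ, ∀ l ∈ c.support, l.length ≤ n :=
    ⟨c.support.sup List.length, fun l hl => Finset.le_sup (f := List.length) hl⟩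
  obtain ⟨H, hH⟩ := key n
  have hc' : c ∈ Sp {l | l ∈ W (Set.univ : Set X) ∧ l.length ≤ n} := by
    intro l hl
    exact ⟨hc hl, hn l hl⟩
  refine ⟨lin H c, lin_mem _ (fun l hl => ?_) hc', ?_⟩
  · rw [lin_single]
    exact Sp_mono (W_mono (Set.subset_univ _)) (hH l hl.1 hl.2).1
  · have : d (lin H c) = c + lin H (d c) := by
      refine sp_induction (p := fun c => d (lin H c) = c + lin H (d c)) (by simp) ?_ ?_ hc'
      · intro l hl
        rw [lin_single, d_single]
        exact (hH l hl.1 hl.2).2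
      · intro a b ha hb
        simp only [map_add, ha, hb]
        abel
    rw [this, hd, map_zero, add_zero]

end Pool.Agent.Y540.SP
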