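import Mathlib

/-!
# The chain complex of the weakly increasing lists of a poset, with coefficients in `ZMod 2`

The simplices are lists; `d` is the boundary operator (augmented: the boundary of `[x]` is `[]`).
-/

set_option autoImplicit false

namespace Pool.Agent.Y540.SP

open Finsupp

/-- Chains: finite sums of lists. -/
abbrev C (X : Type) := List X →₀ ZMod 2

variable {X : Type}

/-- putting `x` in front -/
noncomputable def cons (x : X) : C X →ₗ[ZMod 2] C X :=
  Finsupp.lmapDomain (ZMod 2) (ZMod 2) (List.cons x)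

/-- the chain map of a map -/
noncomputable def mp (f : X → X) : C X →ₗ[ZMod 2] C X :=
  Finsupp.lmapDomain (ZMod 2) (ZMod 2) (List.map f)

/-- the boundary of a list -/
noncomputable def dl : List X → C X
  | [] => 0
  | x :: l => single l 1 + cons x (dl l)

/-- the linear extension of a function on lists -/
noncomputable def lin {M : Type} [AddCommGroup M] [Module (ZMod 2) M] (F : List X → M) :
    C X →ₗ[ZMod 2] M :=
  Finsupp.linearCombination (ZMod 2) F

/-- the boundary operator -/
noncomputable def d : C X →ₗ[ZMod 2] C X := lin dl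

theorem two {M : Type} [AddCommGroup M] [Module (ZMod 2) M] (x : M) : x + x = 0 :=
  ZModModule.add_self x

@[simp] theorem cons_single (x : X) (l : List X) (a : ZMod 2) :
    cons x (single l a) = single (x :: l) a := by
  simp [cons]

@[simp] theorem mp_single (f : X → X) (l : List X) (a : ZMod 2) :
    mp f (single l a) = single (l.map f) a := by
  simp [mp]

@[simp] theorem lin_single {M : Type} [AddCommGroup M] [Module (ZMod 2) M] (F : List X → M)
    (l : List X) : lin F (single l 1) = F l := by
  simp [lin]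

@[simp] theorem d_single (l : List X) : d (single l 1) = dl l := by
  simp [d]

theorem ext {M : Type} [AddCommGroup M] [Module (ZMod 2) M] {F G : C X →ₗ[ZMod 2] M}
    (h : ∀ l, F (single l 1) = G (single l 1)) (c : C X) : F c = G c := by
  have : F = G := by
    refine Finsupp.lhom_ext' fun l => LinearMap.ext_ring ?_
    simpa using h l
  rw [this]

theorem d_cons (x : X) (c : C X) : d (cons x c) = c + cons x (d c) := by
  have := ext (F := d ∘ₗ cons x) (G := LinearMap.id + cons x ∘ₗ d) (fun l => by
    simp [dl]) c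
  simpa using this

theorem d_dl (l : List X) : d (dl l) = 0 := by
  induction l with
  | nil => simp [dl]
  | cons x l ih =>
    rw [dl, map_add, d_single, d_cons, ih, map_zero, add_zero, two]

theorem d_d (c : C X) : d (d c) = 0 := by
  have := ext (F := d ∘ₗ d) (G := (0 : C X →ₗ[ZMod 2] C X)) (fun l => by simp [d_dl]) c
  simpa using this

theorem mp_cons (f : X → X) (x : X) (c : C X) : mp f (cons x c) = cons (f x) (mp f c) := by
  have := ext (F := mp f ∘ₗ cons x) (G := cons (f x) ∘ₗ mp f) (fun l => by simp) c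
  simpa using this

theorem dl_map (f : X → X) (l : List X) : dl (l.map f) = mp f (dl l) := by
  induction l with
  | nil => simp [dl]
  | cons x l ih => simp [dl, ih, mp_cons]

theorem d_mp (f : X → X) (c : C X) : d (mp f c) = mp f (d c) := by
  have := ext (F := d ∘ₗ mp f) (G := mp f ∘ₗ d) (fun l => by simp [dl_map]) c
  simpa using this

theorem mp_mp (f g : X → X) (c : C X) : mp f (mp g c) = mp (f ∘ g) c := by
  have := ext (F := mp f ∘ₗ mp g) (G := mp (f ∘ g)) (fun l => by simp) c
  simpa using this

theorem mp_id (c : C X) : mp id c = c := by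
  have := ext (F := mp id) (G := (LinearMap.id : C X →ₗ[ZMod 2] C X)) (fun l => by simp) c
  simpa using this

/-- the prism over a list -/
noncomputable def hl (φ ψ : X → X) : List X → C X
  | [] => 0
  | x :: l => single (φ x :: ψ x :: l.map ψ) 1 + cons (φ x) (hl φ ψ l)

theorem h_cons (φ ψ : X → X) (x : X) (c : C X) :
    lin (hl φ ψ) (cons x c) = cons (φ x) (cons (ψ x) (mp ψ c)) + cons (φ x) (lin (hl φ ψ) c) := by
  have := ext (F := lin (hl φ ψ) ∘ₗ cons x)
    (G := cons (φ x) ∘ₗ cons (ψ x) ∘ₗ mp ψ + cons (φ x) ∘ₗ lin (hl φ ψ)) (fun l => by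
      simp [hl]) c
  simpa using this

theorem dhl (φ ψ : X → X) (l : List X) :
    d (hl φ ψ l) + lin (hl φ ψ) (dl l) = single (l.map ψ) 1 + single (l.map φ) 1 := by
  induction l with
  | nil => simp [hl, dl, two]
  | cons x l ih =>
    have e1 : d (hl φ ψ (x :: l)) = single (ψ x :: l.map ψ) 1 + cons (φ x) (single (l.map ψ) 1) +
        cons (φ x) (cons (ψ x) (mp ψ (dl l))) + hl φ ψ l + cons (φ x) (d (hl φ ψ l)) := by
      rw [hl, map_add, d_single, d_cons, dl, dl, dl_map, map_add]
      abel
    have e2 : lin (hl φ ψ) (dl (x :: l)) = hl φ ψ l + cons (φ x) (cons (ψ x) (mp ψ (dl l))) +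
        cons (φ x) (lin (hl φ ψ) (dl l)) := by
      rw [dl, map_add, lin_single, h_cons]
      abel
    have e3 : cons (φ x) (d (hl φ ψ l)) + cons (φ x) (lin (hl φ ψ) (dl l)) =
        cons (φ x) (single (l.map ψ) 1) + cons (φ x) (single (l.map φ) 1) := by
      rw [← map_add, ih, map_add]
    rw [e1, e2]
    have e4 : single (ψ x :: l.map ψ) 1 + cons (φ x) (single (l.map ψ) 1) +
        cons (φ x) (cons (ψ x) (mp ψ (dl l))) + hl φ ψ l + cons (φ x) (d (hl φ ψ l)) +
        (hl φ ψ l + cons (φ x) (cons (ψ x) (mp ψ (dl l))) +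
        cons (φ x) (lin (hl φ ψ) (dl l))) =
        single (ψ x :: l.map ψ) 1 + cons (φ x) (single (l.map ψ) 1) +
        (cons (φ x) (cons (ψ x) (mp ψ (dl l))) + cons (φ x) (cons (ψ x) (mp ψ (dl l)))) +
        (hl φ ψ l + hl φ ψ l) + (cons (φ x) (d (hl φ ψ l)) +
        cons (φ x) (lin (hl φ ψ) (dl l))) := by abel
    rw [e4, two, two, e3, add_zero, add_zero]
    have e5 : single (ψ x :: l.map ψ) 1 + cons (φ x) (single (l.map ψ) 1) +
        (cons (φ x) (single (l.map ψ) 1) + cons (φ x) (single (l.map φ) 1)) =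
        single (ψ x :: l.map ψ) 1 + (cons (φ x) (single (l.map ψ) 1) +
        cons (φ x) (single (l.map ψ) 1)) + cons (φ x) (single (l.map φ) 1) := by abel
    rw [e5, two]
    simp

theorem dh (φ ψ : X → X) (c : C X) :
    d (lin (hl φ ψ) c) + lin (hl φ ψ) (d c) = mp ψ c + mp φ c := by
  have := ext (F := d ∘ₗ lin (hl φ ψ) + lin (hl φ ψ) ∘ₗ d) (G := mp ψ + mp φ) (fun l => by
    simp [dhl]) c
  simpa using this

/-! ## Supports -/

/-- the sums of lists in `S` -/
abbrev Sp (S : Set (List X)) : Submodule (ZMod 2) (C X) := Finsupp.supported (ZMod 2) (ZMod 2) S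

theorem single_mem {S : Set (List X)} {l : List X} (h : l ∈ S) : single l (1 : ZMod 2) ∈ Sp S :=
  Finsupp.single_mem_supported _ _ h

theorem sp_induction {S : Set (List X)} {p : C X → Prop} (h0 : p 0)
    (h1 : ∀ l ∈ S, p (single l 1)) (h2 : ∀ a b, p a → p b → p (a + b)) {c : C X}
    (hc : c ∈ Sp S) : p c := by
  have hc' : c ∈ Submodule.span (ZMod 2) ((fun i => single i (1 : ZMod 2)) '' S) := by
    rw [← Finsupp.supported_eq_span_single]; exact hc
  clear hc
  induction hc' using Submodule.span_induction with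
  | mem x hx =>
    obtain ⟨l, hl, rfl⟩ := hx
    exact h1 l hl
  | zero => exact h0
  | add x y _ _ hx hy => exact h2 x y hx hy
  | smul a x _ hx =>
    have : a = 0 ∨ a = 1 := by
      fin_cases a
      · exact Or.inl rfl
      · exact Or.inr rfl
    rcases this with rfl | rfl
    · rw [zero_smul]; exact h0
    · rw [one_smul]; exact hx

theorem lin_mem (F : C X →ₗ[ZMod 2] C X) {S T : Set (List X)}
    (hF : ∀ l ∈ S, F (single l 1) ∈ Sp T) {c : C X} (hc : c ∈ Sp S) : F c ∈ Sp T := by
  refine sp_induction (p := fun c => F c ∈ Sp T) ?_ hF ?_ hc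
  · rw [map_zero]; exact zero_mem _
  · intro a b ha hb
    rw [map_add]; exact add_mem ha hb

theorem dl_sub (l : List X) : dl l ∈ Sp {l' | l'.Sublist l ∧ l'.length + 1 = l.length} := by
  induction l with
  | nil => exact zero_mem _
  | cons x l ih =>
    refine add_mem (single_mem ⟨List.sublist_cons_self x l, rfl⟩) ?_
    refine lin_mem (cons x) (fun l' hl' => ?_) ih
    rw [cons_single]
    exact single_mem ⟨hl'.1.cons_cons x, by simpa using hl'.2⟩

end Pool.Agent.Y540.SP
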