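import Pool.Agent.Y540.SP.Torus

/-!
# No free action of a free abelian monoid of large rank
-/

set_option autoImplicit false

namespace Pool.Agent.Y540.SP

variable {X : Type} [PartialOrder X]

theorem no_free [Nonempty X] (hac : Ac (Set.univ : Set X)) (r : ℕ)
    (hr : ∀ l : List X, l.Pairwise (· < ·) → l.length ≤ r) (T : (ℕ → ℕ) → X → X)
    (hT : ∀ a, Monotone (T a)) (h0 : ∀ x, T 0 x = x) (hadd : ∀ a b x, T (a + b) x = T a (T b x))
    (hfree : ∀ a b x, T a x = T b x → ∀ i < r, a i = b i) : False := by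
  classical
  have hcomm : ∀ a b x, T a (T b x) = T b (T a x) := by
    intro a b x
    rw [← hadd, ← hadd, add_comm]
  let S : Setoid X :=
    { r := fun x y => ∃ a b, T a x = T b y
      iseqv := by
        refine ⟨fun x => ⟨0, 0, rfl⟩, fun ⟨a, b, h⟩ => ⟨b, a, h.symm⟩, ?_⟩
        rintro x y z ⟨a, b, h⟩ ⟨c, e, h'⟩
        refine ⟨c + a, b + e, ?_⟩
        rw [hadd, h, hcomm, h', ← hadd] }
  have hq : ∀ x : X, ∃ a b, T a ((Quotient.mk S x).out) = T b x := by
    intro x
    exact Quotient.exact ((Quotient.mk S x).out_eq)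
  choose A B hAB using hq
  refine torus hac r hr (fun j => T (Pi.single j 1)) (fun j => hT _) (fun i j x => hcomm _ _ _)
    (fun i x => (A x i : ZMod 2) + (B x i : ZMod 2)) ?_
  intro i hi j _ x
  set y := T (Pi.single j 1) x with hy
  have hxy : Quotient.mk S y = Quotient.mk S x := by
    refine Quotient.sound ⟨0, Pi.single j 1, ?_⟩
    rw [h0]
  have h1 := hAB y
  rw [hxy] at h1
  have h2 := hAB x
  set q := (Quotient.mk S x).out with hqdef
  have h3 : T (B x + A y) q = T (B y + Pi.single j 1 + A x) q :=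
    calc T (B x + A y) q = T (B x) (T (A y) q) := hadd _ _ _
      _ = T (B x) (T (B y) y) := by rw [h1]
      _ = T (B x) (T (B y + Pi.single j 1) x) := by rw [hadd (B y)]
      _ = T (B y + Pi.single j 1) (T (B x) x) := hcomm _ _ _
      _ = T (B y + Pi.single j 1) (T (A x) q) := by rw [h2]
      _ = T (B y + Pi.single j 1 + A x) q := (hadd _ _ _).symm
  have h4 := hfree _ _ _ h3 i hi
  simp only [Pi.add_apply] at h4
  have h5 : (Pi.single j 1 : ℕ → ℕ) i = if i = j then 1 else 0 := by
    rw [Pi.single_apply]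
  rw [h5] at h4
  have h6 := congrArg (fun n : ℕ => (n : ZMod 2)) h4
  simp only [Nat.cast_add, Nat.cast_ite, Nat.cast_one, Nat.cast_zero] at h6
  show (A y i : ZMod 2) + (B y i : ZMod 2) = (A x i : ZMod 2) + (B x i : ZMod 2) + _
  have h7 : (A y i : ZMod 2) = (B y i : ZMod 2) + (if i = j then 1 else 0) + (A x i : ZMod 2) +
      (B x i : ZMod 2) := by
    have h8 : (A y i : ZMod 2) = ((B x i : ZMod 2) + (A y i : ZMod 2)) + (B x i : ZMod 2) := by
      have : ((B x i : ZMod 2) + (A y i : ZMod 2)) + (B x i : ZMod 2) =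
        ((B x i : ZMod 2) + (B x i : ZMod 2)) + (A y i : ZMod 2) := by ring
      rw [this, two, zero_add]
    rw [h8, h6]
  rw [h7]
  have : (B y i : ZMod 2) + (if i = j then 1 else 0) + (A x i : ZMod 2) +
      (B x i : ZMod 2) + (B y i : ZMod 2) = ((B y i : ZMod 2) + (B y i : ZMod 2)) +
      ((A x i : ZMod 2) + (B x i : ZMod 2) + (if i = j then 1 else 0)) := by ring
  rw [this, two, zero_add]

end Pool.Agent.Y540.SP
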