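import Pool.Agent.Y540.SP.Acyc

/-!
# Posets with a special element are acyclic
-/

set_option autoImplicit false

namespace Pool.Agent.Y540.SP

variable {P : Type} [PartialOrder P]

/-- the meet with `s` exists -/
def HasM (s x : P) : Prop := ∃ z : P, IsGLB ({s, x} : Set P) z

open Classical in
/-- the meet with `s` (if it exists) -/
noncomputable def m (s x : P) : P := if h : HasM s x then h.choose else s

open Classical in
/-- the join of two elements (if it exists) -/
noncomputable def j (s x : P) : P := if h : ∃ z : P, IsLUB ({s, x} : Set P) z then h.choose else s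

theorem m_spec {s x : P} (h : HasM s x) : IsGLB ({s, x} : Set P) (m s x) := by
  unfold m
  rw [dif_pos h]
  exact h.choose_spec

theorem j_spec {s x : P} (h : ∃ z : P, IsLUB ({s, x} : Set P) z) :
    IsLUB ({s, x} : Set P) (j s x) := by
  unfold j
  rw [dif_pos h]
  exact h.choose_spec

theorem m_le_left {s x : P} (h : HasM s x) : m s x ≤ s := (m_spec h).1 (by simp)
theorem m_le_right {s x : P} (h : HasM s x) : m s x ≤ x := (m_spec h).1 (by simp)
theorem le_m {s x z : P} (h : HasM s x) (h1 : z ≤ s) (h2 : z ≤ x) : z ≤ m s x :=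
  (m_spec h).2 (by
    intro y hy
    rcases hy with rfl | hy
    · exact h1
    · rw [Set.mem_singleton_iff.1 hy]; exact h2)

theorem le_j_left {s x : P} (h : ∃ z : P, IsLUB ({s, x} : Set P) z) : s ≤ j s x :=
  (j_spec h).1 (by simp)
theorem le_j_right {s x : P} (h : ∃ z : P, IsLUB ({s, x} : Set P) z) : x ≤ j s x :=
  (j_spec h).1 (by simp)
theorem j_le {s x z : P} (h : ∃ z : P, IsLUB ({s, x} : Set P) z) (h1 : s ≤ z) (h2 : x ≤ z) :
    j s x ≤ z :=
  (j_spec h).2 (by
    intro y hy
    rcases hy with rfl | hy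
    · exact h1
    · rw [Set.mem_singleton_iff.1 hy]; exact h2)

theorem isGLB_pair {s x z : P} (h1 : z ≤ s) (h2 : z ≤ x) (h3 : ∀ y, y ≤ s → y ≤ x → y ≤ z) :
    IsGLB ({s, x} : Set P) z := by
  refine ⟨?_, fun y hy => h3 y (hy (by simp)) (hy (by simp))⟩
  intro y hy
  rcases hy with rfl | hy
  · exact h1
  · rw [Set.mem_singleton_iff.1 hy]; exact h2

theorem hasM_of {s x z : P} (h1 : z ≤ s) (h2 : z ≤ x) (h3 : ∀ y, y ≤ s → y ≤ x → y ≤ z) :
    HasM s x := ⟨z, isGLB_pair h1 h2 h3⟩

theorem m_eq {s x z : P} (h1 : z ≤ s) (h2 : z ≤ x) (h3 : ∀ y, y ≤ s → y ≤ x → y ≤ z) :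
    m s x = z :=
  (m_spec (hasM_of h1 h2 h3)).unique (isGLB_pair h1 h2 h3)

/-- `s` is special -/
def IsSpecial (s : P) : Prop :=
  (∀ x : P, (∃ z : P, IsLUB ({s, x} : Set P) z) ∨ (∃ z : P, IsGLB ({s, x} : Set P) z)) ∧
  (∀ x y : P, x < y → (¬ ∃ z : P, IsGLB ({s, x} : Set P) z) →
    ∀ m : P, IsGLB ({s, y} : Set P) m → ∃ z : P, IsLUB ({m, x} : Set P) z)

/-- the special elements of a chain `L` -/
def J (s : P) (L : Finset P) : Set P :=
  {x | x = s ∨ (∃ a ∈ L, HasM s a ∧ x = m s a) ∨ (∃ b ∈ L, ¬ HasM s b ∧ x = j s b) ∨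
    ∃ b ∈ L, ∃ a ∈ L, ¬ HasM s b ∧ HasM s a ∧ b < a ∧ x = j (m s a) b}

theorem J_mono (s : P) {L L' : Finset P} (h : L' ⊆ L) : J s L' ⊆ J s L := by
  rintro x (rfl | ⟨a, ha, h1, rfl⟩ | ⟨b, hb, h1, rfl⟩ | ⟨b, hb, a, ha, h1, h2, h3, rfl⟩)
  · exact Or.inl rfl
  · exact Or.inr (Or.inl ⟨a, h ha, h1, rfl⟩)
  · exact Or.inr (Or.inr (Or.inl ⟨b, h hb, h1, rfl⟩))
  · exact Or.inr (Or.inr (Or.inr ⟨b, h hb, a, h ha, h1, h2, h3, rfl⟩))

theorem hasM_of_le {s x : P} (h : x ≤ s) : HasM s x := hasM_of h le_rfl (fun _ _ h => h)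

section
variable {s : P} (hs : IsSpecial s)
include hs

theorem hj {b : P} (hb : ¬ HasM s b) : ∃ z : P, IsLUB ({s, b} : Set P) z :=
  (hs.1 b).resolve_right hb

theorem hk {a b : P} (hb : ¬ HasM s b) (ha : HasM s a) (hab : b < a) :
    ∃ z : P, IsLUB ({m s a, b} : Set P) z :=
  hs.2 b a hab hb _ (m_spec ha)

theorem k_le {a b : P} (hb : ¬ HasM s b) (ha : HasM s a) (hab : b < a) : j (m s a) b ≤ a :=
  j_le (hk hs hb ha hab) (m_le_right ha) hab.le

theorem J_m {L : Finset P} {x : P} (hx : x ∈ J s L) :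
    HasM s x ∧ m s x ∈ J s L := by
  rcases hx with rfl | ⟨a, ha, h1, rfl⟩ | ⟨b, hb, h1, rfl⟩ | ⟨b, hb, a, ha, h1, h2, h3, rfl⟩
  · refine ⟨hasM_of_le le_rfl, Or.inl ?_⟩
    exact m_eq le_rfl le_rfl (fun _ h _ => h)
  · refine ⟨hasM_of_le (m_le_left h1), Or.inr (Or.inl ⟨a, ha, h1, ?_⟩)⟩
    exact m_eq (m_le_left h1) le_rfl (fun _ _ h => h)
  · have h2 : s ≤ j s b := le_j_left (hj hs h1)
    exact ⟨hasM_of le_rfl h2 (fun _ h _ => h), Or.inl (m_eq le_rfl h2 (fun _ h _ => h))⟩
  · have h4 := hk hs h1 h2 h3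
    have h5 := k_le hs h1 h2 h3
    have h6 : ∀ y, y ≤ s → y ≤ j (m s a) b → y ≤ m s a := fun y hy hy' => le_m h2 hy (hy'.trans h5)
    exact ⟨hasM_of (m_le_left h2) (le_j_left h4) h6,
      Or.inr (Or.inl ⟨a, ha, h2, m_eq (m_le_left h2) (le_j_left h4) h6⟩)⟩

theorem J_ac (L : Finset P) : Ac (J s L) := by
  refine Ac_down (K' := {y | y ∈ J s L ∧ y ≤ s}) (fun y hy => hy.1) (φ := m s) ?_ ?_ ?_ ?_
  · intro x hx y hy hxy
    have hx' := (J_m hs hx).1
    exact le_m (J_m hs hy).1 (m_le_left hx') ((m_le_right hx').trans hxy)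
  · intro x hx
    exact m_le_right (J_m hs hx).1
  · intro x hx
    exact ⟨(J_m hs hx).2, m_le_left (J_m hs hx).1⟩
  · refine Ac_up (K' := {s}) ?_ (φ := fun _ => s) ?_ ?_ ?_ ?_
    · intro y hy
      rw [Set.mem_singleton_iff.1 hy]
      exact ⟨Or.inl rfl, le_rfl⟩
    · intro _ _ _ _ _
      exact le_rfl
    · intro x hx
      exact hx.2
    · intro x _
      exact Set.mem_singleton s
    · exact Ac_cone (Set.mem_singleton s) (fun x hx => (Set.mem_singleton_iff.1 hx).ge)

theorem JZ_ac {L : Finset P} (hL : IsChain (· ≤ ·) (L : Set P)) :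
    ∀ n : ℕ, ∀ Z : Finset P, Z ⊆ L → Z.card ≤ n → Ac (J s L ∪ (Z : Set P)) := by
  classical
  have hcmp : ∀ x ∈ L, ∀ y ∈ L, x ≤ y ∨ y ≤ x := fun x hx y hy => hL.total hx hy
  intro n
  induction n with
  | zero =>
    intro Z _ hZ
    have : Z = ∅ := Finset.card_eq_zero.1 (Nat.le_zero.1 hZ)
    subst this
    rw [Finset.coe_empty, Set.union_empty]
    exact J_ac hs L
  | succ n ih =>
    intro Z hZL hZn
    have herase : ∀ z ∈ Z, Ac (J s L ∪ ((Z.erase z : Finset P) : Set P)) := by
      intro z hz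
      refine ih _ ((Finset.erase_subset _ _).trans hZL) ?_
      rw [Finset.card_erase_of_mem hz]
      omega
    have hsub : ∀ z, J s L ∪ ((Z.erase z : Finset P) : Set P) ⊆ J s L ∪ (Z : Set P) := by
      intro z
      exact Set.union_subset_union_right _ (Finset.coe_subset.2 (Finset.erase_subset _ _))
    have hor : ∀ z, ∀ x ∈ J s L ∪ (Z : Set P), x = z ∨ x ∈ J s L ∪ ((Z.erase z : Finset P) : Set P) := by
      intro z x hx
      by_cases hxz : x = z
      · exact Or.inl hxz
      · refine Or.inr ?_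
        rcases hx with hx | hx
        · exact Or.inl hx
        · exact Or.inr (Finset.mem_coe.2 (Finset.mem_erase.2 ⟨hxz, hx⟩))
    rcases Z.eq_empty_or_nonempty with rfl | hZne
    · rw [Finset.coe_empty, Set.union_empty]
      exact J_ac hs L
    by_cases hA : ∃ a ∈ Z, HasM s a
    · -- the smallest element of `Z` having a meet with `s`
      obtain ⟨a', ha', ha'min⟩ : ∃ a' ∈ Z.filter (fun a => HasM s a),
          ∀ a ∈ Z.filter (fun a => HasM s a), a ≤ a' → a = a' := by
        obtain ⟨a, ha, hM⟩ := hA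
        have hne : (Z.filter (fun a => HasM s a)).Nonempty := ⟨a, Finset.mem_filter.2 ⟨ha, hM⟩⟩
        obtain ⟨a', ha'⟩ := Finset.exists_minimal hne
        exact ⟨a', ha'.1, fun a ha h => le_antisymm h (ha'.2 ha h)⟩
      rw [Finset.mem_filter] at ha'
      obtain ⟨haZ, haM⟩ := ha'
      have haL : a' ∈ L := hZL haZ
      by_cases haJ : a' ∈ J s L
      · have : J s L ∪ (Z : Set P) = J s L ∪ ((Z.erase a' : Finset P) : Set P) := by
          refine Set.Subset.antisymm ?_ (hsub a')
          intro x hx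
          rcases hor a' x hx with rfl | hx
          · exact Or.inl haJ
          · exact hx
        rw [this]
        exact herase a' haZ
      · have hZa : ∀ x ∈ Z.erase a', x ≤ a' → x ∈ L ∧ ¬ HasM s x ∧ x < a' := by
          intro x hx hxa
          rw [Finset.mem_erase] at hx
          refine ⟨hZL hx.2, fun hM => ?_, lt_of_le_of_ne hxa hx.1⟩
          exact hx.1 (ha'min x (Finset.mem_filter.2 ⟨hx.2, hM⟩) hxa)
        by_cases hB : ∃ b ∈ L, ¬ HasM s b ∧ b < a'
        · obtain ⟨b₁, hb₁, hb₁max⟩ : ∃ b₁ ∈ L.filter (fun b => ¬ HasM s b ∧ b < a'),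
              ∀ b ∈ L.filter (fun b => ¬ HasM s b ∧ b < a'), b ≤ b₁ := by
            obtain ⟨b, hb, hM⟩ := hB
            have hne : (L.filter (fun b => ¬ HasM s b ∧ b < a')).Nonempty :=
              ⟨b, Finset.mem_filter.2 ⟨hb, hM⟩⟩
            obtain ⟨b₁, hb₁⟩ := Finset.exists_maximal hne
            refine ⟨b₁, hb₁.1, fun b hb => ?_⟩
            rcases hcmp b (Finset.mem_filter.1 hb).1 b₁ (Finset.mem_filter.1 hb₁.1).1 with h | h
            · exact h
            · exact hb₁.2 hb h
          rw [Finset.mem_filter] at hb₁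
          obtain ⟨hb₁L, hb₁M, hb₁a⟩ := hb₁
          have hb₁max' : ∀ b ∈ L, ¬ HasM s b → b < a' → b ≤ b₁ := fun b h1 h2 h3 =>
            hb₁max b (Finset.mem_filter.2 ⟨h1, h2, h3⟩)
          have hK := hk hs hb₁M haM hb₁a
          refine Ac_down_pt (hsub a') (z := a') (w := j (m s a') b₁) (hor a') ?_
            (k_le hs hb₁M haM hb₁a) ?_ (herase a' haZ)
          · exact Or.inl (Or.inr (Or.inr (Or.inr ⟨b₁, hb₁L, a', haL, hb₁M, haM, hb₁a, rfl⟩)))
          · rintro x (hx | hx) hxa
            · rcases hx with rfl | ⟨a, ha, h1, rfl⟩ | ⟨b, hb, h1, rfl⟩ |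
                ⟨b, hb, a, ha, h1, h2, h3, rfl⟩
              · exact (le_m haM le_rfl hxa).trans (le_j_left hK)
              · exact (le_m haM (m_le_left h1) hxa).trans (le_j_left hK)
              · have h4 := hj hs h1
                have h5 : b ≤ a' := (le_j_right h4).trans hxa
                have h6 : b < a' := lt_of_le_of_ne h5 (fun h => h1 (h ▸ haM))
                have h7 : s ≤ a' := (le_j_left h4).trans hxa
                refine j_le h4 ((le_m haM le_rfl h7).trans (le_j_left hK)) ?_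
                exact (hb₁max' b hb h1 h6).trans (le_j_right hK)
              · have h4 := hk hs h1 h2 h3
                have h5 : b ≤ a' := (le_j_right h4).trans hxa
                have h6 : b < a' := lt_of_le_of_ne h5 (fun h => h1 (h ▸ haM))
                have h7 : m s a ≤ a' := (le_j_left h4).trans hxa
                refine j_le h4 ((le_m haM (m_le_left h2) h7).trans (le_j_left hK)) ?_
                exact (hb₁max' b hb h1 h6).trans (le_j_right hK)
            · obtain ⟨h1, h2, h3⟩ := hZa x hx hxa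
              exact (hb₁max' x h1 h2 h3).trans (le_j_right hK)
        · refine Ac_down_pt (hsub a') (z := a') (w := m s a') (hor a') ?_
            (m_le_right haM) ?_ (herase a' haZ)
          · exact Or.inl (Or.inr (Or.inl ⟨a', haL, haM, rfl⟩))
          · rintro x (hx | hx) hxa
            · rcases hx with rfl | ⟨a, ha, h1, rfl⟩ | ⟨b, hb, h1, rfl⟩ |
                ⟨b, hb, a, ha, h1, h2, h3, rfl⟩
              · exact le_m haM le_rfl hxa
              · exact le_m haM (m_le_left h1) hxa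
              · have h4 := hj hs h1
                have h5 : b ≤ a' := (le_j_right h4).trans hxa
                have h6 : b < a' := lt_of_le_of_ne h5 (fun h => h1 (h ▸ haM))
                exact absurd ⟨b, hb, h1, h6⟩ hB
              · have h4 := hk hs h1 h2 h3
                have h5 : b ≤ a' := (le_j_right h4).trans hxa
                have h6 : b < a' := lt_of_le_of_ne h5 (fun h => h1 (h ▸ haM))
                exact absurd ⟨b, hb, h1, h6⟩ hB
            · obtain ⟨h1, h2, h3⟩ := hZa x hx hxa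
              exact absurd ⟨x, h1, h2, h3⟩ hB
    · -- no element of `Z` has a meet with `s`
      have hA' : ∀ x ∈ Z, ¬ HasM s x := fun x hx h => hA ⟨x, hx, h⟩
      obtain ⟨b', hb'⟩ := Finset.exists_maximal hZne
      have hb'Z : b' ∈ Z := hb'.1
      have hb'L : b' ∈ L := hZL hb'Z
      have hb'M : ¬ HasM s b' := hA' b' hb'Z
      have hj' := hj hs hb'M
      by_cases hB : ∃ a ∈ L, HasM s a ∧ b' < a
      · obtain ⟨a₁, ha₁, ha₁min⟩ : ∃ a₁ ∈ L.filter (fun a => HasM s a ∧ b' < a),
            ∀ a ∈ L.filter (fun a => HasM s a ∧ b' < a), a₁ ≤ a := by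
          obtain ⟨a, ha, hM⟩ := hB
          have hne : (L.filter (fun a => HasM s a ∧ b' < a)).Nonempty :=
            ⟨a, Finset.mem_filter.2 ⟨ha, hM⟩⟩
          obtain ⟨a₁, ha₁⟩ := Finset.exists_minimal hne
          refine ⟨a₁, ha₁.1, fun a ha => ?_⟩
          rcases hcmp a₁ (Finset.mem_filter.1 ha₁.1).1 a (Finset.mem_filter.1 ha).1 with h | h
          · exact h
          · exact ha₁.2 ha h
        rw [Finset.mem_filter] at ha₁
        obtain ⟨ha₁L, ha₁M, ha₁b⟩ := ha₁
        have hK := hk hs hb'M ha₁M ha₁b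
        refine Ac_up_pt (hsub b') (z := b') (w := j (m s a₁) b') (hor b') ?_
          (le_j_right hK) ?_ (herase b' hb'Z)
        · exact Or.inl (Or.inr (Or.inr (Or.inr ⟨b', hb'L, a₁, ha₁L, hb'M, ha₁M, ha₁b, rfl⟩)))
        · rintro x (hx | hx) hxb
          · rcases hx with rfl | ⟨a, ha, h1, rfl⟩ | ⟨b, hb, h1, rfl⟩ |
              ⟨b, hb, a, ha, h1, h2, h3, rfl⟩
            · exact absurd (hasM_of_le hxb) hb'M
            · exact absurd (hasM_of_le (hxb.trans (m_le_left h1))) hb'M
            · have h4 := hj hs h1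
              exact j_le hK ((m_le_left ha₁M).trans (le_j_left h4)) hxb
            · have h4 := hk hs h1 h2 h3
              have h5 : b' ≤ a := hxb.trans (k_le hs h1 h2 h3)
              have h6 : b' < a := lt_of_le_of_ne h5 (fun h => hb'M (h ▸ h2))
              have h7 : a₁ ≤ a := ha₁min a (Finset.mem_filter.2 ⟨ha, h2, h6⟩)
              refine j_le hK ?_ hxb
              exact (le_m h2 (m_le_left ha₁M) ((m_le_right ha₁M).trans h7)).trans (le_j_left h4)
          · rw [Finset.mem_coe, Finset.mem_erase] at hx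
            exact absurd (le_antisymm (hb'.2 hx.2 hxb) hxb) hx.1
      · refine Ac_up_pt (hsub b') (z := b') (w := j s b') (hor b') ?_
          (le_j_right hj') ?_ (herase b' hb'Z)
        · exact Or.inl (Or.inr (Or.inr (Or.inl ⟨b', hb'L, hb'M, rfl⟩)))
        · rintro x (hx | hx) hxb
          · rcases hx with rfl | ⟨a, ha, h1, rfl⟩ | ⟨b, hb, h1, rfl⟩ |
              ⟨b, hb, a, ha, h1, h2, h3, rfl⟩
            · exact absurd (hasM_of_le hxb) hb'M
            · exact absurd (hasM_of_le (hxb.trans (m_le_left h1))) hb'M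
            · have h4 := hj hs h1
              exact j_le hj' (le_j_left h4) hxb
            · have h4 := hk hs h1 h2 h3
              have h5 : b' ≤ a := hxb.trans (k_le hs h1 h2 h3)
              have h6 : b' < a := lt_of_le_of_ne h5 (fun h => hb'M (h ▸ h2))
              exact absurd ⟨a, ha, h2, h6⟩ hB
          · rw [Finset.mem_coe, Finset.mem_erase] at hx
            exact absurd (le_antisymm (hb'.2 hx.2 hxb) hxb) hx.1

/-- A poset with a special element is acyclic. -/
theorem special_ac : Ac (Set.univ : Set P) := by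
  classical
  refine Ac_univ (fun L => J s L ∪ (L : Set P)) ?_ ?_ (s := s) ?_ ?_
  · intro L L' h
    exact Set.union_subset_union (J_mono s h) (Finset.coe_subset.2 h)
  · intro L
    exact Set.subset_union_right
  · exact Or.inl (Or.inl rfl)
  · intro L hL
    exact JZ_ac hs hL L.card L (Finset.Subset.refl _) le_rfl

end

end Pool.Agent.Y540.SP
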