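import Pool.Agent.Y540.SP.Acyc

/-!
# Commuting maps on an acyclic poset with bounded chains
-/

set_option autoImplicit false

namespace Pool.Agent.Y540.SP

open Finsupp

variable {X : Type}

/-! ## The functionals -/

/-- the product of the coboundaries of the functions in the list -/
def wl : List (X → ZMod 2) → List X → ZMod 2
  | [], [_] => 1
  | p :: ps, x :: y :: l => (p x + p y) * wl ps (y :: l)
  | _, _ => 0

/-- the function whose coboundary is `wl (p :: ps)` -/
def E (p : X → ZMod 2) (ps : List (X → ZMod 2)) : List X → ZMod 2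
  | [] => 0
  | x :: l => p x * wl ps (x :: l)

/-- the empty list -/
def dz : List X → ZMod 2
  | [] => 1
  | _ :: _ => 0

@[simp] theorem wl_nil (ps : List (X → ZMod 2)) : wl ps ([] : List X) = 0 := by
  cases ps <;> rfl

@[simp] theorem wl_cons_single (p : X → ZMod 2) (ps : List (X → ZMod 2)) (x : X) :
    wl (p :: ps) [x] = 0 := rfl

@[simp] theorem wl_cons_cons (p : X → ZMod 2) (ps : List (X → ZMod 2)) (x y : X) (l : List X) :
    wl (p :: ps) (x :: y :: l) = (p x + p y) * wl ps (y :: l) := rfl

@[simp] theorem wl_nil_single (x : X) : wl [] [x] = 1 := rfl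
@[simp] theorem wl_nil_cons_cons (x y : X) (l : List X) : wl [] (x :: y :: l) = 0 := rfl

theorem lin_add' {M : Type} [AddCommGroup M] [Module (ZMod 2) M] (F : List X → M) (a b : C X) :
    lin F (a + b) = lin F a + lin F b := map_add _ _ _

theorem dz_cons (x : X) (c : C X) : lin dz (cons x c) = 0 := by
  have := ext (F := lin (dz : List X → ZMod 2) ∘ₗ cons x) (G := 0) (fun l => by simp [dz]) c
  simpa using this

theorem wl_nil_eq (c : C X) : lin (wl []) c = lin dz (d c) := by
  have := ext (F := lin (wl ([] : List (X → ZMod 2)))) (G := lin dz ∘ₗ d) (fun l => by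
    rcases l with _ | ⟨x, _ | ⟨y, l⟩⟩
    · simp [dl]
    · simp [dl, dz]
    · rw [lin_single, LinearMap.comp_apply, d_single, dl, map_add, dz_cons]
      simp [dz]) c
  simpa using this

theorem E_cons (p : X → ZMod 2) (ps : List (X → ZMod 2)) (x : X) (c : C X) :
    lin (E p ps) (cons x c) = p x * lin (wl ps) (cons x c) := by
  have := ext (F := lin (E p ps) ∘ₗ cons x) (G := (p x) • (lin (wl ps) ∘ₗ cons x)) (fun l => by
    simp [E]) c
  simpa using this

theorem closed_exact (ps : List (X → ZMod 2)) :
    (∀ c : C X, lin (wl ps) (d c) = 0) ∧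
      ∀ p : X → ZMod 2, ∀ c : C X, lin (wl (p :: ps)) c = lin (E p ps) (d c) := by
  have key : ∀ ps : List (X → ZMod 2), (∀ c : C X, lin (wl ps) (d c) = 0) →
      ∀ p : X → ZMod 2, ∀ c : C X, lin (wl (p :: ps)) c = lin (E p ps) (d c) := by
    intro ps h p c
    have := ext (F := lin (wl (p :: ps))) (G := lin (E p ps) ∘ₗ d) (fun l => by
      rcases l with _ | ⟨x, _ | ⟨y, l⟩⟩
      · simp [dl]
      · simp [dl, E]
      · have h1 := h (single (x :: y :: l) 1)
        rw [d_single, dl, map_add, lin_single] at h1
        rw [lin_single, LinearMap.comp_apply, d_single, dl, map_add, E_cons, lin_single,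
          wl_cons_cons, E]
        have h2 : lin (wl ps) (cons x (dl (y :: l))) = wl ps (y :: l) := by
          have h3 := congrArg (fun z => wl ps (y :: l) + z) h1
          simp only [← add_assoc, two, zero_add, add_zero] at h3
          exact h3
        rw [h2]
        ring) c
    simpa using this
  induction ps with
  | nil =>
    have h : ∀ c : C X, lin (wl ([] : List (X → ZMod 2))) (d c) = 0 := by
      intro c
      rw [wl_nil_eq, d_d, map_zero]
    exact ⟨h, key _ h⟩
  | cons p ps ih =>
    have h : ∀ c : C X, lin (wl (p :: ps)) (d c) = 0 := by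
      intro c
      rw [ih.2 p, d_d, map_zero]
    exact ⟨h, key _ h⟩

theorem wl_map (g : X → X) (ps : List (X → ZMod 2))
    (h : ∀ p ∈ ps, ∃ a : ZMod 2, ∀ x, p (g x) = p x + a) (l : List X) :
    wl ps (l.map g) = wl ps l := by
  induction ps generalizing l with
  | nil =>
    rcases l with _ | ⟨x, _ | ⟨y, l⟩⟩ <;> simp
  | cons p ps ih =>
    rcases l with _ | ⟨x, _ | ⟨y, l⟩⟩
    · simp
    · simp
    · obtain ⟨a, ha⟩ := h p List.mem_cons_self
      have h1 := ih (fun q hq => h q (List.mem_cons_of_mem _ hq)) (y :: l)
      rw [List.map_cons] at h1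
      rw [List.map_cons, List.map_cons, wl_cons_cons, wl_cons_cons, h1, ha, ha]
      have : p x + a + (p y + a) = p x + p y + (a + a) := by ring
      rw [this, two, add_zero]

theorem lin_wl_mp (g : X → X) (ps : List (X → ZMod 2))
    (h : ∀ p ∈ ps, ∃ a : ZMod 2, ∀ x, p (g x) = p x + a) (c : C X) :
    lin (wl ps) (mp g c) = lin (wl ps) c := by
  have := ext (F := lin (wl ps) ∘ₗ mp g) (G := lin (wl ps)) (fun l => by
    simp [wl_map g ps h]) c
  simpa using this

theorem lin_E_mp (g : X → X) (p : X → ZMod 2) (a : ZMod 2) (hp : ∀ x, p (g x) = p x + a)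
    (ps : List (X → ZMod 2))
    (h : ∀ p ∈ ps, ∃ a : ZMod 2, ∀ x, p (g x) = p x + a) (c : C X) :
    lin (E p ps) (mp g c) = lin (E p ps) c + a * lin (wl ps) c := by
  have := ext (F := lin (E p ps) ∘ₗ mp g) (G := lin (E p ps) + a • lin (wl ps)) (fun l => by
    rcases l with _ | ⟨x, l⟩
    · simp [E]
    · have h1 := wl_map g ps h (x :: l)
      rw [List.map_cons] at h1
      simp only [LinearMap.comp_apply, mp_single, lin_single, LinearMap.add_apply,
        LinearMap.smul_apply, smul_eq_mul, List.map_cons, E, h1, hp]
      ring) c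
  simpa using this

/-- a weakly increasing list on which the functional does not vanish is strictly increasing -/
theorem wl_ne [PartialOrder X] (ps : List (X → ZMod 2)) (l : List X) (hl : l.Pairwise (· ≤ ·))
    (h : wl ps l ≠ 0) : l.Pairwise (· < ·) ∧ l.length = ps.length + 1 := by
  induction ps generalizing l with
  | nil =>
    rcases l with _ | ⟨x, _ | ⟨y, l⟩⟩
    · simp at h
    · simp
    · simp at h
  | cons p ps ih =>
    rcases l with _ | ⟨x, _ | ⟨y, l⟩⟩
    · simp at h
    · simp at h
    · rw [wl_cons_cons] at h
      have h1 := left_ne_zero_of_mul h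
      have h2 := right_ne_zero_of_mul h
      obtain ⟨h3, h4⟩ := ih (y :: l) (List.Pairwise.of_cons hl) h2
      have h5 : x ≤ y := List.rel_of_pairwise_cons hl List.mem_cons_self
      have h6 : x < y := by
        refine lt_of_le_of_ne h5 ?_
        rintro rfl
        exact h1 (two _)
      refine ⟨List.pairwise_cons.2 ⟨?_, h3⟩, ?_⟩
      · intro z hz
        rcases List.mem_cons.1 hz with rfl | hz
        · exact h6
        · exact h6.trans (List.rel_of_pairwise_cons h3 hz)
      · simpa using h4

/-! ## The chains of a family of commuting maps -/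

theorem mp_comm {g h : X → X} (hc : ∀ x, g (h x) = h (g x)) (c : C X) :
    mp g (mp h c) = mp h (mp g c) := by
  rw [mp_mp, mp_mp]
  congr 1
  exact congrArg mp (funext hc)

theorem sum_pairs_zero {M : Type} [AddCommGroup M] [Module (ZMod 2) M] (S : Finset ℕ)
    (F : ℕ → ℕ → M) (h : ∀ i ∈ S, ∀ j ∈ S, i ≠ j → F i j = F j i) :
    ∑ i ∈ S, ∑ j ∈ S.erase i, F i j = 0 := by
  rw [Finset.sum_sigma']
  refine Finset.sum_involution (fun x _ => ⟨x.2, x.1⟩) ?_ ?_ ?_ ?_
  · rintro ⟨i, j⟩ hij
    rw [Finset.mem_sigma, Finset.mem_erase] at hij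
    show F i j + F j i = 0
    rw [h i hij.1 j hij.2.2 (fun h => hij.2.1 h.symm), two]
  · rintro ⟨i, j⟩ hij _ h
    rw [Finset.mem_sigma, Finset.mem_erase] at hij
    have : j = i := congrArg Sigma.fst h
    exact hij.2.1 this
  · rintro ⟨i, j⟩ hij
    rw [Finset.mem_sigma, Finset.mem_erase] at hij
    rw [Finset.mem_sigma, Finset.mem_erase]
    exact ⟨hij.2.2, fun h => hij.2.1 h.symm, hij.1⟩
  · rintro ⟨i, j⟩ _
    rfl

/-- the right hand side of the boundary equation -/
noncomputable def rhs (g : ℕ → X → X) (c : Finset ℕ → C X) (S : Finset ℕ) : C X :=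
  (if S = ∅ then single [] 1 else 0) + ∑ i ∈ S, (mp (g i) (c (S.erase i)) + c (S.erase i))

theorem chains [PartialOrder X] [Nonempty X] (hac : Ac (Set.univ : Set X)) (g : ℕ → X → X)
    (hg : ∀ i, Monotone (g i)) (hcomm : ∀ i j x, g i (g j x) = g j (g i x)) (n : ℕ) :
    ∃ c : Finset ℕ → C X, ∀ S : Finset ℕ, S.card ≤ n →
      c S ∈ Sp (W (Set.univ : Set X)) ∧ d (c S) = rhs g c S := by
  induction n with
  | zero =>
    obtain ⟨x₀⟩ := ‹Nonempty X›
    refine ⟨fun _ => single [x₀] 1, fun S hS => ?_⟩
    have : S = ∅ := Finset.card_eq_zero.1 (Nat.le_zero.1 hS)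
    subst this
    refine ⟨single_mem ⟨List.pairwise_singleton _ _, fun _ _ => Set.mem_univ _⟩, ?_⟩
    simp [rhs, dl]
  | succ n ih =>
    obtain ⟨c, hc⟩ := ih
    have h1 : ∀ S : Finset ℕ, ∃ e : C X, S.card = n + 1 →
        e ∈ Sp (W (Set.univ : Set X)) ∧ d e = rhs g c S := by
      intro S
      by_cases hS : S.card = n + 1
      · have hne : S ≠ ∅ := by
          rintro rfl
          simp at hS
        have hcard : ∀ i ∈ S, (S.erase i).card ≤ n := fun i hi => by
          rw [Finset.card_erase_of_mem hi]; omega
        have hmem : rhs g c S ∈ Sp (W (Set.univ : Set X)) := by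
          unfold rhs
          rw [if_neg hne, zero_add]
          refine sum_mem fun i hi => ?_
          have h2 := (hc (S.erase i) (hcard i hi)).1
          exact add_mem (mp_mem (fun x _ y _ hxy => hg i hxy) (fun _ _ => Set.mem_univ _) h2) h2
        have hcyc : d (rhs g c S) = 0 := by
          unfold rhs
          rw [if_neg hne, zero_add, map_sum]
          have h3 : ∀ i ∈ S, d (mp (g i) (c (S.erase i)) + c (S.erase i)) =
              ∑ j ∈ S.erase i, (mp (g i) (mp (g j) (c ((S.erase i).erase j))) +
                mp (g i) (c ((S.erase i).erase j)) + mp (g j) (c ((S.erase i).erase j)) +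
                c ((S.erase i).erase j)) := by
            intro i hi
            rw [map_add, d_mp, (hc (S.erase i) (hcard i hi)).2]
            unfold rhs
            rw [map_add, map_sum]
            have h4 : mp (g i) (if S.erase i = ∅ then single [] 1 else 0) =
                (if S.erase i = ∅ then single [] 1 else 0) := by
              split_ifs
              · simp
              · simp
            rw [h4]
            have h5 : ∀ (a b c : C X), a + b + (a + c) = b + c := by
              intro a b c
              have : a + b + (a + c) = (a + a) + (b + c) := by abel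
              rw [this, two, zero_add]
            rw [h5, ← Finset.sum_add_distrib]
            refine Finset.sum_congr rfl fun j _ => ?_
            rw [map_add]
            abel
          rw [Finset.sum_congr rfl h3]
          refine sum_pairs_zero S (fun i j => mp (g i) (mp (g j) (c ((S.erase i).erase j))) +
                mp (g i) (c ((S.erase i).erase j)) + mp (g j) (c ((S.erase i).erase j)) +
                c ((S.erase i).erase j)) ?_
          intro i _ j _ _
          show mp (g i) (mp (g j) (c ((S.erase i).erase j))) +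
                mp (g i) (c ((S.erase i).erase j)) + mp (g j) (c ((S.erase i).erase j)) +
                c ((S.erase i).erase j) = mp (g j) (mp (g i) (c ((S.erase j).erase i))) +
                mp (g j) (c ((S.erase j).erase i)) + mp (g i) (c ((S.erase j).erase i)) +
                c ((S.erase j).erase i)
          rw [Finset.erase_right_comm, mp_comm (hcomm i j)]
          abel
        obtain ⟨e, he, hde⟩ := hac _ hmem hcyc
        exact ⟨e, fun _ => ⟨he, hde⟩⟩
      · exact ⟨0, fun h => absurd h hS⟩
    choose e he using h1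
    refine ⟨fun S => if S.card ≤ n then c S else e S, fun S hS => ?_⟩
    have h2 : rhs g (fun S => if S.card ≤ n then c S else e S) S = rhs g c S := by
      unfold rhs
      congr 1
      refine Finset.sum_congr rfl fun i hi => ?_
      have h3 : (S.erase i).card ≤ n := by
        rw [Finset.card_erase_of_mem hi]; omega
      simp only [h3, if_true]
    rw [h2]
    by_cases h4 : S.card ≤ n
    · simp only [h4, if_true]
      exact hc S h4
    · simp only [h4, if_false]
      exact he S (by omega)

/-- the list `[p (k-1), …, p 0]` -/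
def pl (p : ℕ → X → ZMod 2) : ℕ → List (X → ZMod 2)
  | 0 => []
  | k + 1 => p k :: pl p k

theorem pl_length (p : ℕ → X → ZMod 2) (k : ℕ) : (pl p k).length = k := by
  induction k with
  | zero => rfl
  | succ k ih => simp [pl, ih]

theorem pl_mem (p : ℕ → X → ZMod 2) (k : ℕ) (q : X → ZMod 2) (hq : q ∈ pl p k) :
    ∃ i < k, q = p i := by
  induction k with
  | zero => simp [pl] at hq
  | succ k ih =>
    rcases List.mem_cons.1 hq with rfl | hq
    · exact ⟨k, Nat.lt_succ_self k, rfl⟩
    · obtain ⟨i, hi, h⟩ := ih hq
      exact ⟨i, Nat.lt_succ_of_lt hi, h⟩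

/-- **Main lemma.** On a nonempty acyclic poset whose chains have at most `r` elements there are
no `r` commuting monotone maps with independent characters mod 2. -/
theorem torus [PartialOrder X] [Nonempty X] (hac : Ac (Set.univ : Set X)) (r : ℕ)
    (hr : ∀ l : List X, l.Pairwise (· < ·) → l.length ≤ r) (g : ℕ → X → X)
    (hg : ∀ i, Monotone (g i)) (hcomm : ∀ i j x, g i (g j x) = g j (g i x))
    (p : ℕ → X → ZMod 2)
    (hp : ∀ i < r, ∀ j < r, ∀ x, p i (g j x) = p i x + if i = j then 1 else 0) : False := by
  obtain ⟨c, hc⟩ := chains hac g hg hcomm r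
  have h1 : ∀ k ≤ r, lin (wl (pl p k)) (c (Finset.range k)) = 1 := by
    intro k
    induction k with
    | zero =>
      intro _
      rw [pl, wl_nil_eq, (hc (Finset.range 0) (by simp)).2]
      simp [rhs, dz]
    | succ k ih =>
      intro hk
      have hne : Finset.range (k + 1) ≠ ∅ := by simp
      rw [pl, (closed_exact (pl p k)).2, (hc (Finset.range (k + 1)) (by simpa using hk)).2, rhs,
        if_neg hne, zero_add, map_sum]
      have h2 : ∀ i ∈ Finset.range (k + 1), lin (E (p k) (pl p k))
          (mp (g i) (c ((Finset.range (k + 1)).erase i)) + c ((Finset.range (k + 1)).erase i)) =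
          (if k = i then 1 else 0) * lin (wl (pl p k)) (c ((Finset.range (k + 1)).erase i)) := by
        intro i hi
        have hi' : i < k + 1 := Finset.mem_range.1 hi
        rw [map_add, lin_E_mp (g i) (p k) (if k = i then 1 else 0) (hp k (by omega) i (by omega))
          (pl p k) (fun q hq => by
            obtain ⟨j, hj, rfl⟩ := pl_mem p k q hq
            exact ⟨_, hp j (by omega) i (by omega)⟩)]
        have : ∀ a b : ZMod 2, a + b + a = b := by
          intro a b
          have : a + b + a = (a + a) + b := by ring
          rw [this, two, zero_add]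
        rw [this]
      rw [Finset.sum_congr rfl h2, Finset.sum_eq_single k]
      · rw [if_pos rfl, one_mul, Finset.range_add_one, Finset.erase_insert (by simp)]
        exact ih (by omega)
      · intro b _ hb
        rw [if_neg (fun h => hb h.symm), zero_mul]
      · intro h
        exact absurd (Finset.self_mem_range_succ k) h
  have h3 := h1 r le_rfl
  have h4 : lin (wl (pl p r)) (c (Finset.range r)) = 0 := by
    refine sp_induction (p := fun c => lin (wl (pl p r)) c = 0) (map_zero _) ?_ ?_
      (hc (Finset.range r) (by simp)).1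
    · intro l hl
      rw [lin_single]
      by_contra hne
      obtain ⟨h5, h6⟩ := wl_ne _ _ hl.1 hne
      have := hr l h5
      rw [h6, pl_length] at this
      omega
    · intro a b ha hb
      rw [map_add, ha, hb, add_zero]
  rw [h3] at h4
  exact one_ne_zero h4

end Pool.Agent.Y540.SP
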