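import Pool.Agent.Y540.SP.Free
import Pool.Agent.Y540.SP.Special

/-!
# Ultraproducts of posets
-/

set_option autoImplicit false

namespace Pool.Agent.Y540.SP

open Filter

variable (P : ℕ → Type) [∀ m, PartialOrder (P m)] (U : Ultrafilter ℕ)

/-- equality almost everywhere -/
def uS : Setoid (∀ m, P m) where
  r x y := ∀ᶠ m in (U : Filter ℕ), x m = y m
  iseqv := ⟨fun _ => Eventually.of_forall fun _ => rfl, fun h => h.mono fun _ h => h.symm,
    fun h h' => (h.and h').mono fun _ h => h.1.trans h.2⟩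

/-- the ultraproduct -/
def Q : Type := Quotient (uS P U)

variable {P U}

/-- the class of a sequence -/
def mk (x : ∀ m, P m) : Q P U := Quotient.mk (uS P U) x

/-- a representative -/
noncomputable def out (x : Q P U) : ∀ m, P m := Quotient.out x

omit [∀ m, PartialOrder (P m)] in
theorem mk_out (x : Q P U) : mk (out x) = x := Quotient.out_eq x

omit [∀ m, PartialOrder (P m)] in
theorem mk_eq {x y : ∀ m, P m} : (mk x : Q P U) = mk y ↔ ∀ᶠ m in (U : Filter ℕ), x m = y m :=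
  Quotient.eq (r := uS P U)

omit [∀ m, PartialOrder (P m)] in
theorem out_mk (x : ∀ m, P m) : ∀ᶠ m in (U : Filter ℕ), out (mk x : Q P U) m = x m :=
  mk_eq.1 (mk_out (mk x))

noncomputable instance : PartialOrder (Q P U) where
  le x y := ∀ᶠ m in (U : Filter ℕ), out x m ≤ out y m
  le_refl x := Eventually.of_forall fun _ => le_rfl
  le_trans x y z h h' := (h.and h').mono fun _ h => h.1.trans h.2
  le_antisymm x y h h' := by
    rw [← mk_out x, ← mk_out y, mk_eq]
    exact (h.and h').mono fun _ h => le_antisymm h.1 h.2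

theorem le_iff (x y : Q P U) : x ≤ y ↔ ∀ᶠ m in (U : Filter ℕ), out x m ≤ out y m := Iff.rfl

theorem mk_le {x y : ∀ m, P m} : (mk x : Q P U) ≤ mk y ↔ ∀ᶠ m in (U : Filter ℕ), x m ≤ y m := by
  rw [le_iff]
  constructor
  · intro h
    filter_upwards [h, out_mk (U := U) x, out_mk (U := U) y] with m h1 h2 h3
    rwa [h2, h3] at h1
  · intro h
    filter_upwards [h, out_mk (U := U) x, out_mk (U := U) y] with m h1 h2 h3
    rwa [h2, h3]

theorem mk_lt {x y : ∀ m, P m} : (mk x : Q P U) < mk y ↔ ∀ᶠ m in (U : Filter ℕ), x m < y m := by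
  constructor
  · intro h
    have h1 := mk_le.1 h.le
    have h2 : ¬ ∀ᶠ m in (U : Filter ℕ), x m = y m := fun h' => h.ne (mk_eq.2 h')
    rw [← Ultrafilter.eventually_not] at h2
    filter_upwards [h1, h2] with m h3 h4
    exact lt_of_le_of_ne h3 h4
  · intro h
    refine lt_of_le_of_ne (mk_le.2 (h.mono fun _ h => h.le)) ?_
    intro h'
    obtain ⟨m, h1, h2⟩ := (h.and (mk_eq.1 h')).exists
    exact h1.ne h2

theorem lt_iff (x y : Q P U) : x < y ↔ ∀ᶠ m in (U : Filter ℕ), out x m < out y m := by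
  rw [← mk_lt, mk_out, mk_out]

omit [∀ m, PartialOrder (P m)] in
theorem ev_all {p : Q P U → ℕ → Prop} (l : List (Q P U))
    (h : ∀ y ∈ l, ∀ᶠ m in (U : Filter ℕ), p y m) : ∀ᶠ m in (U : Filter ℕ), ∀ y ∈ l, p y m := by
  induction l with
  | nil => exact Eventually.of_forall fun _ _ h => absurd h List.not_mem_nil
  | cons x l ih =>
    filter_upwards [h x List.mem_cons_self, ih fun y hy => h y (List.mem_cons_of_mem _ hy)] with
      m h1 h2 y hy
    rcases List.mem_cons.1 hy with rfl | hy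
    · exact h1
    · exact h2 y hy

theorem ev_pairwise (l : List (Q P U)) (h : l.Pairwise (· < ·)) :
    ∀ᶠ m in (U : Filter ℕ), (l.map fun x => out x m).Pairwise (· < ·) := by
  induction l with
  | nil => exact Eventually.of_forall fun _ => List.Pairwise.nil
  | cons x l ih =>
    rw [List.pairwise_cons] at h
    have h1 := ev_all (p := fun y m => out x m < out y m) l fun y hy => (lt_iff x y).1 (h.1 y hy)
    filter_upwards [h1, ih h.2] with m h2 h3
    rw [List.map_cons, List.pairwise_cons]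
    refine ⟨fun z hz => ?_, h3⟩
    obtain ⟨y, hy, rfl⟩ := List.mem_map.1 hz
    exact h2 y hy

theorem Q_chains {n : ℕ} (h : ∀ m, ∀ l : List (P m), l.Pairwise (· < ·) → l.length ≤ n)
    (l : List (Q P U)) (hl : l.Pairwise (· < ·)) : l.length ≤ n := by
  obtain ⟨m, hm⟩ := (ev_pairwise l hl).exists
  simpa using h m _ hm

theorem glb_pair {R : Type} [PartialOrder R] {a b z : R} :
    IsGLB ({a, b} : Set R) z ↔ z ≤ a ∧ z ≤ b ∧ ∀ w, w ≤ a → w ≤ b → w ≤ z := by
  constructor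
  · intro h
    refine ⟨h.1 (by simp), h.1 (by simp), fun w h1 h2 => h.2 ?_⟩
    intro y hy
    rcases hy with rfl | hy
    · exact h1
    · rw [Set.mem_singleton_iff.1 hy]; exact h2
  · rintro ⟨h1, h2, h3⟩
    exact isGLB_pair h1 h2 h3

theorem lub_pair {R : Type} [PartialOrder R] {a b z : R} :
    IsLUB ({a, b} : Set R) z ↔ a ≤ z ∧ b ≤ z ∧ ∀ w, a ≤ w → b ≤ w → z ≤ w := by
  constructor
  · intro h
    refine ⟨h.1 (by simp), h.1 (by simp), fun w h1 h2 => h.2 ?_⟩
    intro y hy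
    rcases hy with rfl | hy
    · exact h1
    · rw [Set.mem_singleton_iff.1 hy]; exact h2
  · rintro ⟨h1, h2, h3⟩
    refine ⟨?_, fun w hw => h3 w (hw (by simp)) (hw (by simp))⟩
    intro y hy
    rcases hy with rfl | hy
    · exact h1
    · rw [Set.mem_singleton_iff.1 hy]; exact h2

theorem Q_glb {a b z : ∀ m, P m} : IsGLB ({mk a, mk b} : Set (Q P U)) (mk z) ↔
    ∀ᶠ m in (U : Filter ℕ), IsGLB ({a m, b m} : Set (P m)) (z m) := by
  classical
  rw [glb_pair]
  constructor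
  · rintro ⟨h1, h2, h3⟩
    by_contra hne
    rw [← Ultrafilter.eventually_not] at hne
    have h4 : ∀ m, ∃ w : P m, (∃ w' : P m, w' ≤ a m ∧ w' ≤ b m ∧ ¬ w' ≤ z m) →
        w ≤ a m ∧ w ≤ b m ∧ ¬ w ≤ z m := by
      intro m
      by_cases h : ∃ w' : P m, w' ≤ a m ∧ w' ≤ b m ∧ ¬ w' ≤ z m
      · obtain ⟨w', hw'⟩ := h
        exact ⟨w', fun _ => hw'⟩
      · exact ⟨z m, fun h' => absurd h' h⟩
    choose w hw using h4
    have h5 : ∀ᶠ m in (U : Filter ℕ), w m ≤ a m ∧ w m ≤ b m ∧ ¬ w m ≤ z m := by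
      filter_upwards [hne, mk_le.1 h1, mk_le.1 h2] with m h6 h7 h8
      refine hw m ?_
      by_contra h9
      push Not at h9
      exact h6 (glb_pair.2 ⟨h7, h8, h9⟩)
    have h6 := mk_le.1 (h3 (mk w) (mk_le.2 (h5.mono fun _ h => h.1))
      (mk_le.2 (h5.mono fun _ h => h.2.1)))
    obtain ⟨m, h7, h8⟩ := (h5.and h6).exists
    exact h7.2.2 h8
  · intro h
    refine ⟨mk_le.2 (h.mono fun _ h => (glb_pair.1 h).1),
      mk_le.2 (h.mono fun _ h => (glb_pair.1 h).2.1), fun w h1 h2 => ?_⟩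
    rw [← mk_out w, mk_le] at h1 h2 ⊢
    filter_upwards [h, h1, h2] with m h3 h4 h5
    exact (glb_pair.1 h3).2.2 _ h4 h5

theorem Q_lub {a b z : ∀ m, P m} : IsLUB ({mk a, mk b} : Set (Q P U)) (mk z) ↔
    ∀ᶠ m in (U : Filter ℕ), IsLUB ({a m, b m} : Set (P m)) (z m) := by
  classical
  rw [lub_pair]
  constructor
  · rintro ⟨h1, h2, h3⟩
    by_contra hne
    rw [← Ultrafilter.eventually_not] at hne
    have h4 : ∀ m, ∃ w : P m, (∃ w' : P m, a m ≤ w' ∧ b m ≤ w' ∧ ¬ z m ≤ w') →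
        a m ≤ w ∧ b m ≤ w ∧ ¬ z m ≤ w := by
      intro m
      by_cases h : ∃ w' : P m, a m ≤ w' ∧ b m ≤ w' ∧ ¬ z m ≤ w'
      · obtain ⟨w', hw'⟩ := h
        exact ⟨w', fun _ => hw'⟩
      · exact ⟨z m, fun h' => absurd h' h⟩
    choose w hw using h4
    have h5 : ∀ᶠ m in (U : Filter ℕ), a m ≤ w m ∧ b m ≤ w m ∧ ¬ z m ≤ w m := by
      filter_upwards [hne, mk_le.1 h1, mk_le.1 h2] with m h6 h7 h8
      refine hw m ?_
      by_contra h9
      push Not at h9
      exact h6 (lub_pair.2 ⟨h7, h8, h9⟩)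
    have h6 := mk_le.1 (h3 (mk w) (mk_le.2 (h5.mono fun _ h => h.1))
      (mk_le.2 (h5.mono fun _ h => h.2.1)))
    obtain ⟨m, h7, h8⟩ := (h5.and h6).exists
    exact h7.2.2 h8
  · intro h
    refine ⟨mk_le.2 (h.mono fun _ h => (lub_pair.1 h).1),
      mk_le.2 (h.mono fun _ h => (lub_pair.1 h).2.1), fun w h1 h2 => ?_⟩
    rw [← mk_out w, mk_le] at h1 h2 ⊢
    filter_upwards [h, h1, h2] with m h3 h4 h5
    exact (lub_pair.1 h3).2.2 _ h4 h5

theorem Q_glb_ex {a b : ∀ m, P m} : (∃ z, IsGLB ({mk a, mk b} : Set (Q P U)) z) ↔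
    ∀ᶠ m in (U : Filter ℕ), ∃ z, IsGLB ({a m, b m} : Set (P m)) z := by
  classical
  constructor
  · rintro ⟨z, hz⟩
    rw [← mk_out z, Q_glb] at hz
    exact hz.mono fun m h => ⟨_, h⟩
  · intro h
    have h4 : ∀ m, ∃ w : P m, (∃ z, IsGLB ({a m, b m} : Set (P m)) z) →
        IsGLB ({a m, b m} : Set (P m)) w := by
      intro m
      by_cases h : ∃ z, IsGLB ({a m, b m} : Set (P m)) z
      · obtain ⟨w', hw'⟩ := h
        exact ⟨w', fun _ => hw'⟩
      · exact ⟨a m, fun h' => absurd h' h⟩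
    choose w hw using h4
    exact ⟨mk w, Q_glb.2 (h.mono fun m h => hw m h)⟩

theorem Q_lub_ex {a b : ∀ m, P m} : (∃ z, IsLUB ({mk a, mk b} : Set (Q P U)) z) ↔
    ∀ᶠ m in (U : Filter ℕ), ∃ z, IsLUB ({a m, b m} : Set (P m)) z := by
  classical
  constructor
  · rintro ⟨z, hz⟩
    rw [← mk_out z, Q_lub] at hz
    exact hz.mono fun m h => ⟨_, h⟩
  · intro h
    have h4 : ∀ m, ∃ w : P m, (∃ z, IsLUB ({a m, b m} : Set (P m)) z) →
        IsLUB ({a m, b m} : Set (P m)) w := by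
      intro m
      by_cases h : ∃ z, IsLUB ({a m, b m} : Set (P m)) z
      · obtain ⟨w', hw'⟩ := h
        exact ⟨w', fun _ => hw'⟩
      · exact ⟨a m, fun h' => absurd h' h⟩
    choose w hw using h4
    exact ⟨mk w, Q_lub.2 (h.mono fun m h => hw m h)⟩

theorem Q_special {s : ∀ m, P m} (hs : ∀ m, IsSpecial (s m)) : IsSpecial (mk s : Q P U) := by
  constructor
  · intro x
    rw [← mk_out x, Q_lub_ex, Q_glb_ex, ← Ultrafilter.eventually_or]
    exact Eventually.of_forall fun m => (hs m).1 _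
  · intro x y hxy hx w hw
    rw [← mk_out x, ← mk_out y, mk_lt] at hxy
    rw [← mk_out x, Q_glb_ex, ← Ultrafilter.eventually_not] at hx
    rw [← mk_out w, ← mk_out y, Q_glb] at hw
    rw [← mk_out x, ← mk_out w, Q_lub_ex]
    filter_upwards [hxy, hx, hw] with m h1 h2 h3
    exact (hs m).2 _ _ h1 h2 _ h3

/-- the map of the ultraproduct -/
noncomputable def um (f : ∀ m, P m → P m) (x : Q P U) : Q P U := mk fun m => f m (out x m)

omit [∀ m, PartialOrder (P m)] in
theorem um_mk (f : ∀ m, P m → P m) (x : ∀ m, P m) : um f (mk x : Q P U) = mk fun m => f m (x m) := by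
  refine mk_eq.2 ?_
  filter_upwards [out_mk (U := U) x] with m h
  rw [h]

theorem um_mono {f : ∀ m, P m → P m} (hf : ∀ m, Monotone (f m)) : Monotone (um f : Q P U → Q P U) := by
  intro x y hxy
  exact mk_le.2 (hxy.mono fun m h => hf m h)

end Pool.Agent.Y540.SP
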